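import Pool.Agent.H474R2.PG.Defs
import Pool.Agent.H921R2.TatePole.Tensor
import Pool.Agent.H921R2.TatePole.Radical

set_option autoImplicit false

/-! # Roots of a polynomial modulo `p` and homomorphisms of a ring of integers -/

namespace Pool.Agent.H474R2.PG

open Polynomial Finset NumberField

theorem P2_ne_zero {N : ℤ} {p : ℕ} (hN : N ≠ 0) (hp : N.natAbs < p) : ((N : ℤ) : ZMod p) ≠ 0 := by
  intro h
  rw [ZMod.intCast_zmod_eq_zero_iff_dvd] at h
  rw [Int.natCast_dvd] at h
  have := Nat.le_of_dvd (Int.natAbs_pos.2 hN) h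
  omega

theorem P2_core (K : Type) [Field K] [NumberField K] (f : ℤ[X]) (hd : 0 < f.natDegree) (α : K)
    (hαf : eval₂ (Int.castRingHom K) α f = 0)
    (hadj : ∀ x : K, ∃ q : ℚ[X], eval₂ (Rat.castHom K) α q = x) :
    ∃ B : ℕ, ∀ p : ℕ, p.Prime → B < p → Nat.card (𝓞 K →+* ZMod p) ≤ rho f p := by
  classical
  obtain ⟨N0, hN0, b, hb⟩ := Pool.Agent.H921R2.TatePole.exists_int_mul (K := K) α
  have hN0K : (N0 : K) ≠ 0 := by exact_mod_cast hN0
  have htop : Algebra.adjoin ℚ {(b : K)} = ⊤ := by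
    rw [eq_top_iff]
    intro x _
    obtain ⟨q, hq⟩ := hadj x
    have hα : α ∈ Algebra.adjoin ℚ {(b : K)} := by
      have h2 : α = ((1 / (N0 : ℚ) : ℚ)) • (b : K) := by
        have h5 : algebraMap ℚ K (1 / (N0 : ℚ)) = 1 / (N0 : K) := by
          rw [map_div₀, map_one, map_intCast]
        rw [hb, Algebra.smul_def, h5]
        field_simp
      rw [h2]
      exact Subalgebra.smul_mem _ (Algebra.subset_adjoin (Set.mem_singleton _)) _
    have h3 : x = aeval α q := by
      rw [← hq, aeval_def]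
      congr 1
    rw [h3]
    have h4 := Polynomial.aeval_mem_adjoin_singleton ℚ (p := q) α
    exact (Algebra.adjoin_le (S := Algebra.adjoin ℚ {(b : K)}) (by
      intro y hy
      rw [Set.mem_singleton_iff] at hy
      rw [hy]
      exact hα)) h4
  obtain ⟨N1, hN1, hind⟩ := Pool.Agent.H921R2.TatePole.exists_index (K := K) htop
  -- the scaled polynomial
  have hαf' : aeval α f = 0 := by
    rw [aeval_def]
    exact hαf
  have hbf : aeval b (scaleRoots f N0) = 0 := by
    have h1 : aeval (algebraMap ℤ K N0 * α) (scaleRoots f N0) = 0 := scaleRoots_aeval_eq_zero hαf'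
    have h2 : aeval (b : K) (scaleRoots f N0) = 0 := by
      rw [hb]
      simpa using h1
    apply RingOfIntegers.ext
    have h3 : ((aeval b (scaleRoots f N0) : 𝓞 K) : K) = aeval (b : K) (scaleRoots f N0) :=
      (Polynomial.aeval_algebraMap_apply K b (scaleRoots f N0)).symm
    rw [h3, h2]
    simp
  refine ⟨N0.natAbs + N1.natAbs, fun p hp hpB => ?_⟩
  have : Fact p.Prime := ⟨hp⟩
  have h0p : ((N0 : ℤ) : ZMod p) ≠ 0 := P2_ne_zero hN0 (by omega)
  have h1p : ((N1 : ℤ) : ZMod p) ≠ 0 := P2_ne_zero hN1 (by omega)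
  set rt : (𝓞 K →+* ZMod p) → ZMod p := fun φ => φ b / (N0 : ZMod p) with hrt
  have hφb : ∀ φ : 𝓞 K →+* ZMod p, φ b = (N0 : ZMod p) * rt φ := by
    intro φ
    rw [hrt]
    field_simp
  have hroot : ∀ φ : 𝓞 K →+* ZMod p, (p : ℤ) ∣ f.eval (((rt φ).val : ℕ) : ℤ) := by
    intro φ
    have h1 : aeval (φ b) (scaleRoots f N0) = 0 := by
      have := Polynomial.aeval_algHom_apply φ.toIntAlgHom b (scaleRoots f N0)
      rw [hbf, map_zero] at this
      exact this
    have h2 : eval₂ (Int.castRingHom (ZMod p)) ((Int.castRingHom (ZMod p)) N0 * rt φ)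
        (scaleRoots f N0) = (Int.castRingHom (ZMod p)) N0 ^ f.natDegree *
          eval₂ (Int.castRingHom (ZMod p)) (rt φ) f := scaleRoots_eval₂_mul _ _ _
    have h3 : aeval (φ b) (scaleRoots f N0) = eval₂ (Int.castRingHom (ZMod p))
        ((Int.castRingHom (ZMod p)) N0 * rt φ) (scaleRoots f N0) := by
      rw [hφb φ]
      rfl
    rw [h3, h2] at h1
    have h4 : eval₂ (Int.castRingHom (ZMod p)) (rt φ) f = 0 := by
      rcases mul_eq_zero.1 h1 with h | h
      · exact absurd (eq_zero_of_pow_eq_zero h) (by simpa using h0p)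
      · exact h
    rw [← ZMod.intCast_zmod_eq_zero_iff_dvd]
    have h5 := Polynomial.eval_intCast_map (Int.castRingHom (ZMod p)) f (((rt φ).val : ℕ) : ℤ)
    rw [eval₂_eq_eval_map] at h4
    have h6 : (((((rt φ).val : ℕ) : ℤ)) : ZMod p) = rt φ := by
      push_cast
      exact ZMod.natCast_zmod_val _
    rw [h6, h4] at h5
    exact h5.symm
  have hmem : ∀ φ : 𝓞 K →+* ZMod p, (rt φ).val ∈ (Finset.range p).filter
      (fun a : ℕ => (p : ℤ) ∣ f.eval (a : ℤ)) := by
    intro φ
    rw [Finset.mem_filter, Finset.mem_range]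
    exact ⟨ZMod.val_lt _, hroot φ⟩
  have hinj : Function.Injective (fun φ : 𝓞 K →+* ZMod p =>
      (⟨(rt φ).val, hmem φ⟩ : {a : ℕ // a ∈ (Finset.range p).filter
        (fun a : ℕ => (p : ℤ) ∣ f.eval (a : ℤ))})) := by
    intro φ ψ h
    simp only [Subtype.mk.injEq] at h
    have h1 : rt φ = rt ψ := ZMod.val_injective p h
    have h2 : φ b = ψ b := by rw [hφb φ, hφb ψ, h1]
    refine RingHom.ext fun x => ?_
    obtain ⟨A, hA⟩ := hind x
    have h3 : φ ((N1 : 𝓞 K) * x) = ψ ((N1 : 𝓞 K) * x) := by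
      rw [hA]
      have e1 := Polynomial.aeval_algHom_apply φ.toIntAlgHom b A
      have e2 := Polynomial.aeval_algHom_apply ψ.toIntAlgHom b A
      have e3 : φ.toIntAlgHom b = ψ.toIntAlgHom b := h2
      rw [e3] at e1
      have e4 : φ.toIntAlgHom (aeval b A) = ψ.toIntAlgHom (aeval b A) := by rw [← e1, e2]
      exact e4
    rw [map_mul, map_mul, map_intCast, map_intCast] at h3
    exact mul_left_cancel₀ h1p h3
  have := Nat.card_le_card_of_injective _ hinj
  rw [Nat.card_eq_fintype_card (α := {a : ℕ // a ∈ (Finset.range p).filter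
        (fun a : ℕ => (p : ℤ) ∣ f.eval (a : ℤ))}), Fintype.card_coe] at this
  exact this

theorem homs_le_rho (f : ℤ[X]) (hf : Irreducible f) (hd : 0 < f.natDegree) :
    ∃ (K : Type) (_ : Field K) (_ : NumberField K), ∃ B : ℕ, ∀ p : ℕ, p.Prime → B < p →
      Nat.card (𝓞 K →+* ZMod p) ≤ rho f p := by
  have hprim : f.IsPrimitive := hf.isPrimitive hd.ne'
  have hF : Irreducible (f.map (Int.castRingHom ℚ)) :=
    (IsPrimitive.Int.irreducible_iff_irreducible_map_cast hprim).1 hf
  have hfact : Fact (Irreducible (f.map (Int.castRingHom ℚ))) := ⟨hF⟩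
  refine ⟨AdjoinRoot (f.map (Int.castRingHom ℚ)), inferInstance, inferInstance, ?_⟩
  refine P2_core _ f hd (AdjoinRoot.root (f.map (Int.castRingHom ℚ))) ?_ ?_
  · have h1 := AdjoinRoot.eval₂_root (f.map (Int.castRingHom ℚ))
    rw [eval₂_map] at h1
    have h2 : (AdjoinRoot.of (f.map (Int.castRingHom ℚ))).comp (Int.castRingHom ℚ) =
        Int.castRingHom (AdjoinRoot (f.map (Int.castRingHom ℚ))) := RingHom.ext_int _ _
    rw [h2] at h1
    exact h1
  · intro x
    obtain ⟨q, rfl⟩ := AdjoinRoot.mk_surjective x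
    refine ⟨q, ?_⟩
    have h2 : Rat.castHom (AdjoinRoot (f.map (Int.castRingHom ℚ))) =
        AdjoinRoot.of (f.map (Int.castRingHom ℚ)) := Subsingleton.elim _ _
    rw [h2]
    have h3 := AdjoinRoot.aeval_eq (f := f.map (Int.castRingHom ℚ)) q
    rw [← h3]
    rfl

end Pool.Agent.H474R2.PG
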