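import Pool.Agent.H474R2.PG.HomsLower
import Pool.Agent.H474R2.PG.HomsRho

set_option autoImplicit false

/-! # T3: lower bound in Mertens' theorem for the roots of a polynomial -/

namespace Pool.Agent.H474R2.PG

open Polynomial Finset NumberField

/-- T3 (uses T1, T2): lower bound in Mertens' theorem for the roots of `f` -/
theorem mertens_lower (f : ℤ[X]) (hf : Irreducible f) (hd : 0 < f.natDegree) :
    ∃ C : ℝ, ∀ w : ℝ, 3 ≤ w → Real.log (Real.log w) - C ≤ Sg (rho f) w := by
  obtain ⟨K, iF, iN, B, hB⟩ := homs_le_rho f hf hd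
  obtain ⟨C, hC⟩ := homs_lower K
  refine ⟨C + ∑ p ∈ PR B, (Nat.card (𝓞 K →+* ZMod p) : ℝ) / (p : ℝ), fun w hw => ?_⟩
  have h1 := hC w hw
  have h2 : ∑ p ∈ PR w, (Nat.card (𝓞 K →+* ZMod p) : ℝ) / (p : ℝ) ≤
      ∑ p ∈ PR B, (Nat.card (𝓞 K →+* ZMod p) : ℝ) / (p : ℝ) + Sg (rho f) w := by
    unfold Sg
    rw [← Finset.sum_filter_add_sum_filter_not (PR w) (fun p => p ≤ B)]
    apply add_le_add
    · apply Finset.sum_le_sum_of_subset_of_nonneg
      · intro p hp
        rw [Finset.mem_filter, PR, Finset.mem_filter, Finset.mem_Icc] at hp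
        rw [PR, Finset.mem_filter, Finset.mem_Icc, Nat.floor_natCast]
        exact ⟨⟨hp.1.1.1, hp.2⟩, hp.1.2⟩
      · intro p _ _
        positivity
    · calc ∑ p ∈ (PR w).filter (fun p => ¬ p ≤ B), (Nat.card (𝓞 K →+* ZMod p) : ℝ) / (p : ℝ)
          ≤ ∑ p ∈ (PR w).filter (fun p => ¬ p ≤ B), (rho f p : ℝ) / (p : ℝ) := by
            apply Finset.sum_le_sum
            intro p hp
            rw [Finset.mem_filter] at hp
            have hpp : p.Prime := (Finset.mem_filter.1 hp.1).2
            have h3 : (Nat.card (𝓞 K →+* ZMod p) : ℝ) ≤ rho f p := by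
              exact_mod_cast hB p hpp (not_le.1 hp.2)
            exact div_le_div_of_nonneg_right h3 (by positivity)
        _ ≤ ∑ p ∈ PR w, (rho f p : ℝ) / (p : ℝ) := by
            apply Finset.sum_le_sum_of_subset_of_nonneg (Finset.filter_subset _ _)
            intro p _ _
            positivity
  linarith

/-- T3b: a polynomial has at most `deg f` roots modulo large primes -/
theorem rho_le (f : ℤ[X]) (hf : f ≠ 0) :
    ∃ B : ℕ, ∀ p : ℕ, p.Prime → B < p → rho f p ≤ f.natDegree := by
  refine ⟨f.leadingCoeff.natAbs, fun p hp hB => ?_⟩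
  have : Fact p.Prime := ⟨hp⟩
  set g : (ZMod p)[X] := f.map (Int.castRingHom (ZMod p)) with hg
  have hlc : (Int.castRingHom (ZMod p)) f.leadingCoeff ≠ 0 := by
    intro h
    rw [eq_intCast, ZMod.intCast_zmod_eq_zero_iff_dvd] at h
    have h2 := Int.natAbs_le_of_dvd_ne_zero h (leadingCoeff_ne_zero.2 hf)
    simp only [Int.natAbs_natCast] at h2
    omega
  have hg0 : g ≠ 0 := by
    intro h
    apply hlc
    have h3 : g.coeff f.natDegree = 0 := by rw [h, coeff_zero]
    rwa [hg, coeff_map] at h3
  have hdeg : g.natDegree ≤ f.natDegree := natDegree_map_le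
  unfold rho
  classical
  calc ((Finset.range p).filter (fun a : ℕ => (p : ℤ) ∣ f.eval (a : ℤ))).card
      ≤ g.roots.toFinset.card := by
        apply Finset.card_le_card_of_injOn (fun a : ℕ => (a : ZMod p))
        · intro a ha
          rw [Finset.mem_coe, Finset.mem_filter] at ha
          rw [Finset.mem_coe, Multiset.mem_toFinset, mem_roots hg0, IsRoot.def, hg]
          have h4 : eval ((a : ℤ) : ZMod p) (f.map (Int.castRingHom (ZMod p))) =
              ((f.eval (a : ℤ) : ℤ) : ZMod p) := by
            rw [eval_intCast_map]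
            rfl
          have h5 : ((a : ℤ) : ZMod p) = (a : ZMod p) := by push_cast; rfl
          change eval (a : ZMod p) (f.map (Int.castRingHom (ZMod p))) = 0
          rw [← h5, h4, ZMod.intCast_zmod_eq_zero_iff_dvd]
          exact ha.2
        · intro a ha b hb hab
          rw [Finset.mem_coe, Finset.mem_filter, Finset.mem_range] at ha hb
          have h6 := (ZMod.natCast_eq_natCast_iff' a b p).1 hab
          rwa [Nat.mod_eq_of_lt ha.1, Nat.mod_eq_of_lt hb.1] at h6
    _ ≤ Multiset.card g.roots := Multiset.toFinset_card_le _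
    _ ≤ g.natDegree := card_roots' g
    _ ≤ f.natDegree := hdeg

end Pool.Agent.H474R2.PG

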