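import Mathlib

set_option autoImplicit false

/-! # Long strings of composite values of polynomials: definitions (helper474) -/

namespace Pool.Agent.H474R2.PG

open Polynomial Finset

/-- number of roots of `f` modulo `p` -/
noncomputable def rho (f : ℤ[X]) (p : ℕ) : ℕ :=
  ((Finset.range p).filter (fun a : ℕ => (p : ℤ) ∣ f.eval (a : ℤ))).card

/-- primes up to `w` -/
noncomputable def PR (w : ℝ) : Finset ℕ := (Finset.Icc 1 ⌊w⌋₊).filter Nat.Prime

/-- `∑_{p ≤ w} r(p)/p` -/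
noncomputable def Sg (r : ℕ → ℕ) (w : ℝ) : ℝ := ∑ p ∈ PR w, (r p : ℝ) / (p : ℝ)

/-- sieving primes: `y < p ≤ z`, `r(p) ≠ 0` -/
noncomputable def PS (r : ℕ → ℕ) (y z : ℝ) : Finset ℕ :=
  (PR z).filter (fun p => y < (p : ℝ) ∧ r p ≠ 0)

end Pool.Agent.H474R2.PG
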