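import Pool.Agent.H256R2.SC.V2
import Pool.Agent.H474R2.PG.Defs

set_option autoImplicit false
set_option linter.unusedSectionVars false

/-! # Enumeration, colouring and numerical facts for the covering theorem with several classes -/

namespace Pool.Agent.H474R2.PG

open Finset Filter Pool.Agent.H256R2.SC

open Classical in
theorem Asum_enum' (PP : Finset ℕ) (g : ℕ → ℝ) (x : ℝ) :
    Asum (fun i => ((emb PP i : ℕ) : ℝ)) (fun i => g (emb PP i)) x =
      ∑ s ∈ (PP.powerset.filter (fun s : Finset ℕ => s.Nonempty ∧ ∏ p ∈ s, (p : ℝ) ≤ x)),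
        ∏ p ∈ s, g p := by
  unfold Asum
  refine Finset.sum_bij' (fun s _ => s.map (emb PP))
    (fun t _ => univ.filter (fun i => emb PP i ∈ t)) ?_ ?_ ?_ ?_ ?_
  · intro s hs
    rw [Finset.mem_filter] at hs ⊢
    refine ⟨Finset.mem_powerset.mpr ?_, hs.2.1.map, ?_⟩
    · intro p hp
      obtain ⟨i, _, rfl⟩ := Finset.mem_map.mp hp
      exact emb_mem PP i
    · rw [Finset.prod_map]
      exact hs.2.2
  · intro t ht
    rw [Finset.mem_filter, Finset.mem_powerset] at ht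
    have hmap : (univ.filter (fun i => emb PP i ∈ t)).map (emb PP) = t := by
      ext p
      rw [Finset.mem_map]
      constructor
      · rintro ⟨i, hi, rfl⟩
        exact (Finset.mem_filter.mp hi).2
      · intro hp
        obtain ⟨i, rfl⟩ := emb_surj PP (ht.1 hp)
        exact ⟨i, Finset.mem_filter.mpr ⟨Finset.mem_univ _, hp⟩, rfl⟩
    rw [Finset.mem_filter]
    refine ⟨Finset.mem_univ _, ?_, ?_⟩
    · have := ht.2.1
      rw [← hmap] at this
      exact Finset.map_nonempty.mp this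
    · have := ht.2.2
      rw [← hmap, Finset.prod_map] at this
      exact this
  · intro s _
    ext i
    rw [Finset.mem_filter, Finset.mem_map' (emb PP)]
    simp
  · intro t ht
    rw [Finset.mem_filter, Finset.mem_powerset] at ht
    ext p
    rw [Finset.mem_map]
    constructor
    · rintro ⟨i, hi, rfl⟩
      exact (Finset.mem_filter.mp hi).2
    · intro hp
      obtain ⟨i, rfl⟩ := emb_surj PP (ht.1 hp)
      exact ⟨i, Finset.mem_filter.mpr ⟨Finset.mem_univ _, hp⟩, rfl⟩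
  · intro s _
    rw [Finset.prod_map]

section
variable {κ : Type} [Fintype κ] [DecidableEq κ]

open Classical in
/-- colouring of the integers by a relation: prime number `i` kills the shift `k` -/
noncomputable def colh (PP : Finset ℕ) (hit : ℕ → ℤ → κ → Prop) (a : ℤ) : Col PP.card κ := fun i =>
  if h : ∃ k, hit (emb PP i) a k then some h.choose else none

lemma colh_eq {PP : Finset ℕ} {hit : ℕ → ℤ → κ → Prop}
    (huniq : ∀ p ∈ PP, ∀ a k l, hit p a k → hit p a l → k = l) (a : ℤ) (i : Fin PP.card)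
    (k : κ) : colh PP hit a i = some k ↔ hit (emb PP i) a k := by
  unfold colh
  constructor
  · intro h
    split_ifs at h with h1
    have h2 := Option.some.inj h
    have h3 := h1.choose_spec
    rw [h2] at h3
    exact h3
  · intro h
    have h1 : ∃ k, hit (emb PP i) a k := ⟨k, h⟩
    rw [dif_pos h1]
    congr 1
    exact huniq _ (emb_mem PP i) a _ _ h1.choose_spec h

/-- the primes of an assignment -/
noncomputable def TT (PP : Finset ℕ) (D : Col PP.card κ) : Finset ℕ := (supp D).map (emb PP)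

lemma TT_mem {PP : Finset ℕ} {D : Col PP.card κ} {p : ℕ} (hp : p ∈ TT PP D) : p ∈ PP := by
  unfold TT at hp
  obtain ⟨i, _, rfl⟩ := Finset.mem_map.mp hp
  exact emb_mem PP i

lemma TT_prod (PP : Finset ℕ) (D : Col PP.card κ) :
    ∏ p ∈ TT PP D, (p : ℝ) = qq (fun i => ((emb PP i : ℕ) : ℝ)) D := by
  unfold TT qq
  rw [prod_nu1, Finset.prod_map]

lemma TT_nu (PP : Finset ℕ) (g : ℕ → ℝ) (D : Col PP.card κ) :
    ∏ p ∈ TT PP D, g p = nu (fun i => g (emb PP i)) D := by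
  unfold TT nu
  rw [prod_nu1, Finset.prod_map]

open Classical in
/-- the colour of a prime -/
noncomputable def sT [Nonempty κ] (PP : Finset ℕ) (D : Col PP.card κ) (p : ℕ) : κ :=
  if h : ∃ q : Fin PP.card × κ, emb PP q.1 = p ∧ D q.1 = some q.2 then h.choose.2
  else Classical.arbitrary κ

lemma sT_eq [Nonempty κ] (PP : Finset ℕ) (D : Col PP.card κ) (i : Fin PP.card) (k : κ)
    (h : D i = some k) : sT PP D (emb PP i) = k := by
  unfold sT
  have h1 : ∃ q : Fin PP.card × κ, emb PP q.1 = emb PP i ∧ D q.1 = some q.2 := ⟨(i, k), rfl, h⟩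
  rw [dif_pos h1]
  obtain ⟨h2, h4⟩ := h1.choose_spec
  have h3 : h1.choose.1 = i := (emb PP).injective h2
  rw [h3, h] at h4
  exact (Option.some.inj h4).symm

theorem event_iff' [Nonempty κ] {PP : Finset ℕ} {hit : ℕ → ℤ → κ → Prop}
    (huniq : ∀ p ∈ PP, ∀ a k l, hit p a k → hit p a l → k = l) (D : Col PP.card κ) (a : ℤ) :
    (∀ i, D i ≠ none → colh PP hit a i = D i) ↔ ∀ p ∈ TT PP D, hit p a (sT PP D p) := by
  constructor
  · intro h p hp
    unfold TT at hp
    obtain ⟨i, hi, rfl⟩ := Finset.mem_map.mp hp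
    have hne := mem_supp.mp hi
    obtain ⟨k, hk⟩ := Option.ne_none_iff_exists'.mp hne
    rw [sT_eq PP D i k hk]
    have := h i hne
    rw [hk] at this
    exact (colh_eq huniq a i k).mp this
  · intro h i hi
    obtain ⟨k, hk⟩ := Option.ne_none_iff_exists'.mp hi
    rw [hk]
    rw [colh_eq huniq]
    have h1 := h (emb PP i) (by
      unfold TT
      exact Finset.mem_map_of_mem _ (mem_supp.mpr hi))
    rwa [sT_eq PP D i k hk] at h1

end

/-- the number of scales -/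
theorem scales' (T Y L : ℝ) (hT : 0 < T) (hL : 1 < L) (h : L ^ (7 / 10 : ℝ) * T ≤ Y) :
    ∃ m : ℕ, (2:ℝ) ^ m * T ≤ Y ∧ Y / 2 ≤ (2:ℝ) ^ m * T ∧ Real.log L ≤ m + 1 := by
  set l := Real.log L with hl
  have hL0 : 0 < L := by linarith
  set W : ℝ := Y / T with hW
  have hW1 : L ^ (7 / 10 : ℝ) ≤ W := by
    rw [hW, le_div_iff₀ hT]
    exact h
  have hW0 : 1 ≤ W := by
    refine le_trans ?_ hW1
    exact Real.one_le_rpow hL.le (by norm_num)
  have hfl : ⌊W⌋₊ ≠ 0 := by
    have : 1 ≤ ⌊W⌋₊ := Nat.le_floor (by simpa using hW0)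
    omega
  set m : ℕ := Nat.log 2 ⌊W⌋₊ with hm
  have hm1 : (2:ℝ) ^ m ≤ W := by
    have e1 : 2 ^ m ≤ ⌊W⌋₊ := Nat.pow_log_le_self 2 hfl
    calc (2:ℝ) ^ m ≤ (⌊W⌋₊ : ℝ) := by exact_mod_cast e1
      _ ≤ W := Nat.floor_le (by linarith)
  have hm2 : W < (2:ℝ) ^ (m + 1) := by
    have e1 : ⌊W⌋₊ < 2 ^ (m + 1) := Nat.lt_pow_succ_log_self (by norm_num) _
    have e2 : ⌊W⌋₊ + 1 ≤ 2 ^ (m + 1) := e1
    calc W < (⌊W⌋₊ : ℝ) + 1 := Nat.lt_floor_add_one W
      _ ≤ (2:ℝ) ^ (m + 1) := by exact_mod_cast e2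
  have hWl : W * T = Y := by
    rw [hW]
    field_simp
  refine ⟨m, ?_, ?_, ?_⟩
  · calc (2:ℝ) ^ m * T ≤ W * T := mul_le_mul_of_nonneg_right hm1 hT.le
      _ = Y := hWl
  · have e1 : W * T ≤ (2:ℝ) ^ (m + 1) * T := mul_le_mul_of_nonneg_right hm2.le hT.le
    rw [hWl, pow_succ] at e1
    linarith
  · by_contra hc
    push Not at hc
    have e1 : (2:ℝ) ^ (m + 1) ≤ L ^ (7 / 10 : ℝ) := by
      have e2 : (2:ℝ) ^ (m + 1) = Real.exp (Real.log 2 * (m + 1)) := by
        rw [← Real.rpow_natCast, Real.rpow_def_of_pos (by norm_num)]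
        push_cast
        rfl
      rw [e2, Real.rpow_def_of_pos hL0]
      apply Real.exp_le_exp.mpr
      have e3 := Real.log_two_lt_d9
      have e4 : (0:ℝ) ≤ (m:ℝ) + 1 := by positivity
      have e5 : Real.log 2 * (m + 1) ≤ 0.7 * (m + 1) := by nlinarith
      rw [← hl]
      nlinarith
    linarith

/-- largeness conditions -/
theorem ev_facts' (M d : ℕ) (CM C₄ : ℝ) (Y : ℝ) : ∃ L₀ : ℝ, ∀ L : ℝ, L₀ ≤ L →
    10 ≤ Real.log L ∧ 20 * CM ≤ Real.log L ∧
      C₄ * (Real.log L) ^ M ≤ L ^ (3 / 10 : ℝ) ∧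
      L ≤ Real.exp (L / 100) ∧ 1000 ≤ L ∧ Real.log L ≤ L ∧ 8 * ((d : ℝ) ^ 2 + 1) ≤ L ∧ Y ≤ L := by
  have h1 : ∀ᶠ L : ℝ in atTop, 10 ≤ Real.log L := Real.tendsto_log_atTop.eventually_ge_atTop 10
  have h2 : ∀ᶠ L : ℝ in atTop, 20 * CM ≤ Real.log L :=
    Real.tendsto_log_atTop.eventually_ge_atTop _
  have h3 : ∀ᶠ L : ℝ in atTop, C₄ * (Real.log L) ^ M ≤ L ^ (3 / 10 : ℝ) := by
    have e1 : (fun L : ℝ => (Real.log L) ^ (M:ℝ)) =o[atTop] (fun L : ℝ => L ^ (3 / 10 : ℝ)) :=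
      isLittleO_log_rpow_rpow_atTop M (by norm_num)
    have e2 := e1.def (show (0:ℝ) < 1 / (|C₄| + 1) by positivity)
    filter_upwards [e2, h1, eventually_ge_atTop (1:ℝ)] with L hL hL1 hL2
    rw [Real.norm_eq_abs, Real.norm_eq_abs, abs_of_nonneg (Real.rpow_nonneg (by linarith) _),
      abs_of_nonneg (Real.rpow_nonneg (by linarith) _)] at hL
    rw [Real.rpow_natCast] at hL
    have e4 : (|C₄| + 1) * (Real.log L) ^ M ≤ L ^ (3 / 10 : ℝ) := by
      rw [div_mul_eq_mul_div, one_mul, le_div_iff₀ (by positivity)] at hL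
      linarith
    have e6 : 0 ≤ (Real.log L) ^ M := pow_nonneg (by linarith) _
    have e5 : C₄ * (Real.log L) ^ M ≤ (|C₄| + 1) * (Real.log L) ^ M := by
      apply mul_le_mul_of_nonneg_right _ e6
      linarith [le_abs_self C₄]
    linarith
  have h4 : ∀ᶠ L : ℝ in atTop, L ≤ Real.exp (L / 100) := by
    have e1 := Real.isLittleO_log_id_atTop.def (show (0:ℝ) < 1 / 100 by norm_num)
    filter_upwards [e1, eventually_ge_atTop (1:ℝ)] with L hL hL1
    rw [Real.norm_eq_abs, abs_of_nonneg (Real.log_nonneg hL1), Real.norm_eq_abs] at hL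
    simp only [id] at hL
    rw [abs_of_nonneg (by linarith)] at hL
    calc L = Real.exp (Real.log L) := (Real.exp_log (by linarith)).symm
      _ ≤ Real.exp (L / 100) := Real.exp_le_exp.mpr (by linarith)
  have h5 : ∀ᶠ L : ℝ in atTop, Real.log L ≤ L := by
    filter_upwards [eventually_ge_atTop (1:ℝ)] with L hL
    linarith [Real.log_le_sub_one_of_pos (show (0:ℝ) < L by linarith)]
  obtain ⟨L₀, h⟩ := Filter.eventually_atTop.mp
    (((((((h1.and h2).and h3).and h4).and (eventually_ge_atTop (1000:ℝ))).and h5).and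
      (eventually_ge_atTop (8 * ((d : ℝ) ^ 2 + 1)))).and (eventually_ge_atTop Y))
  exact ⟨L₀, fun L hL => ⟨(h L hL).1.1.1.1.1.1.1, (h L hL).1.1.1.1.1.1.2, (h L hL).1.1.1.1.1.2,
    (h L hL).1.1.1.1.2, (h L hL).1.1.1.2, (h L hL).1.1.2, (h L hL).1.2, (h L hL).2⟩⟩

end Pool.Agent.H474R2.PG
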