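import Pool.Agent.H474R2.PG.Defs
import Pool.Agent.Helper256.KM.Mertens

set_option autoImplicit false

/-! # Task P4: sums over rough squarefree numbers (Rankin's trick) -/

namespace Pool.Agent.H474R2.PG

open Finset

namespace RoughAux

theorem log_sum_le : ∃ C : ℝ, 0 ≤ C ∧ ∀ w : ℝ, 1 ≤ w →
    ∑ p ∈ PR w, Real.log p / p ≤ Real.log w + C := by
  obtain ⟨C, hC⟩ := Pool.Agent.Helper256.KM.mertens_log
  refine ⟨C, (abs_nonneg _).trans (hC 1 le_rfl), fun w hw => ?_⟩
  have h1 : 1 ≤ ⌊w⌋₊ := Nat.le_floor (by simpa using hw)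
  have h2 := (abs_le.1 (hC _ h1)).2
  have h3 : Real.log ⌊w⌋₊ ≤ Real.log w :=
    Real.log_le_log (by exact_mod_cast h1) (Nat.floor_le (by linarith))
  unfold PR
  linarith

theorem mem_PR {w : ℝ} (hw : 0 ≤ w) {p : ℕ} : p ∈ PR w ↔ p.Prime ∧ (p : ℝ) ≤ w := by
  simp only [PR, mem_filter, mem_Icc, Nat.le_floor_iff hw]
  exact ⟨fun h => ⟨h.2, h.1.2⟩, fun h => ⟨⟨h.1.one_lt.le, h.2⟩, h.1⟩⟩

theorem one_add_lower {a : ℝ} (h0 : 0 ≤ a) : Real.exp (a - a ^ 2) ≤ 1 + a := by
  rw [← Real.le_log_iff_exp_le (by linarith)]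
  refine le_trans ?_ (Real.le_log_one_add_of_nonneg h0)
  rw [le_div_iff₀ (by linarith)]
  nlinarith [pow_nonneg h0 2, pow_nonneg h0 3]

theorem exp_le_lin {t : ℝ} (h0 : 0 ≤ t) (h1 : t ≤ 1) : Real.exp t ≤ 1 + 2 * t := by
  have h := convexOn_exp.2 (Set.mem_univ (0 : ℝ)) (Set.mem_univ (1 : ℝ)) (sub_nonneg.2 h1) h0
    (sub_add_cancel 1 t)
  simp only [smul_eq_mul, mul_zero, mul_one, zero_add, Real.exp_zero] at h
  have h2 : Real.exp 1 < 3 := by
    have := Real.exp_one_lt_d9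
    linarith
  nlinarith

theorem sum_inv_sq_le {P : Finset ℕ} (hP : ∀ p ∈ P, 2 ≤ p) : ∑ p ∈ P, ((p : ℝ) ^ 2)⁻¹ ≤ 1 := by
  rcases P.eq_empty_or_nonempty with h | h
  · rw [h]; simp
  · set n := P.max' h with hn
    have h1 : 1 ≤ n := by
      have := hP n (P.max'_mem h)
      omega
    have hsub : P ⊆ Ioc 1 n := fun p hp => mem_Ioc.2 ⟨by have := hP p hp; omega, P.le_max' p hp⟩
    calc ∑ p ∈ P, ((p : ℝ) ^ 2)⁻¹ ≤ ∑ p ∈ Ioc 1 n, ((p : ℝ) ^ 2)⁻¹ :=
          sum_le_sum_of_subset_of_nonneg hsub fun i _ _ => by positivity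
      _ ≤ ((1 : ℕ) : ℝ)⁻¹ - (n : ℝ)⁻¹ := sum_Ioc_inv_sq_le_sub one_ne_zero h1
      _ ≤ 1 := by
          have : 0 ≤ (n : ℝ)⁻¹ := by positivity
          simp only [Nat.cast_one, inv_one]
          linarith

theorem rankin (P : Finset ℕ) (a : ℕ → ℝ) (ha : ∀ p ∈ P, 0 ≤ a p) {x : ℝ} (hx : 0 < x)
    {η : ℝ} (hη : 0 ≤ η) :
    ∑ s ∈ P.powerset.filter (fun s : Finset ℕ => ¬ ∏ p ∈ s, (p : ℝ) ≤ x), ∏ p ∈ s, a p ≤
      x ^ (-η) * ∏ p ∈ P, (1 + a p * (p : ℝ) ^ η) := by
  rw [prod_one_add, mul_sum]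
  refine le_trans (b := ∑ s ∈ P.powerset.filter (fun s : Finset ℕ => ¬ ∏ p ∈ s, (p : ℝ) ≤ x),
    x ^ (-η) * ∏ p ∈ s, a p * (p : ℝ) ^ η) ?_
    (sum_le_sum_of_subset_of_nonneg (filter_subset _ _) fun s hs _ => ?_)
  · refine sum_le_sum fun s hs => ?_
    rw [mem_filter, mem_powerset, not_le] at hs
    have h0 : 0 ≤ ∏ p ∈ s, a p := prod_nonneg fun p hp => ha p (hs.1 hp)
    have h1 : 0 < ∏ p ∈ s, (p : ℝ) := hx.trans hs.2
    rw [prod_mul_distrib, Real.finsetProd_rpow _ _ fun p _ => Nat.cast_nonneg p]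
    have h2 : 1 ≤ x ^ (-η) * (∏ p ∈ s, (p : ℝ)) ^ η := by
      rw [Real.rpow_neg hx.le, inv_mul_eq_div, ← Real.div_rpow h1.le hx.le]
      exact Real.one_le_rpow ((one_le_div hx).2 hs.2.le) hη
    calc ∏ p ∈ s, a p = (∏ p ∈ s, a p) * 1 := (mul_one _).symm
      _ ≤ (∏ p ∈ s, a p) * (x ^ (-η) * (∏ p ∈ s, (p : ℝ)) ^ η) :=
          mul_le_mul_of_nonneg_left h2 h0
      _ = _ := by ring
  · rw [mem_powerset] at hs
    have h0 : 0 ≤ ∏ p ∈ s, a p * (p : ℝ) ^ η := prod_nonneg fun p hp =>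
      mul_nonneg (ha p (hs hp)) (Real.rpow_nonneg (Nat.cast_nonneg p) _)
    exact mul_nonneg (Real.rpow_nonneg hx.le _) h0

theorem prod_le' (P : Finset ℕ) (a : ℕ → ℝ) (ha : ∀ p ∈ P, 0 ≤ a p) (hp : ∀ p ∈ P, 1 ≤ (p : ℝ))
    {w : ℝ} (hw : 1 ≤ Real.log w) (hpw : ∀ p ∈ P, (p : ℝ) ≤ w) :
    ∏ p ∈ P, (1 + a p * (p : ℝ) ^ (Real.log w)⁻¹) ≤
      (∏ p ∈ P, (1 + a p)) * Real.exp (∑ p ∈ P, 2 * a p * ((Real.log w)⁻¹ * Real.log p)) := by
  rw [Real.exp_sum, ← prod_mul_distrib]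
  refine prod_le_prod (fun p hpP => ?_) fun p hpP => ?_
  · have := ha p hpP
    positivity
  · have h0 := ha p hpP
    have hp1 := hp p hpP
    have hp0 : (0 : ℝ) < p := by linarith
    have hlp : 0 ≤ Real.log p := Real.log_nonneg hp1
    have h1 : 0 ≤ (Real.log w)⁻¹ * Real.log p := by positivity
    have h2 : (Real.log w)⁻¹ * Real.log p ≤ 1 := by
      rw [inv_mul_le_iff₀ (by linarith), mul_one]
      exact Real.log_le_log hp0 (hpw p hpP)
    have h3 : (p : ℝ) ^ (Real.log w)⁻¹ = Real.exp ((Real.log w)⁻¹ * Real.log p) := by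
      rw [Real.rpow_def_of_pos hp0, mul_comm]
    rw [h3]
    generalize (Real.log w)⁻¹ * Real.log p = t at h1 h2 ⊢
    have h4 := exp_le_lin h1 h2
    have h5 : 1 + 2 * a p * t ≤ Real.exp (2 * a p * t) := by
      linarith [Real.add_one_le_exp (2 * a p * t)]
    calc 1 + a p * Real.exp t ≤ 1 + a p * (1 + 2 * t) := by gcongr
      _ ≤ (1 + a p) * (1 + 2 * a p * t) := by nlinarith [mul_nonneg (mul_nonneg h0 h0) h1]
      _ ≤ (1 + a p) * Real.exp (2 * a p * t) := by gcongr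

theorem sum_PS (r : ℕ → ℕ) {y w : ℝ} (hy : 0 ≤ y) (hyw : y ≤ w) :
    ∑ p ∈ PS r y w, (r p : ℝ) / (p : ℝ) = Sg r w - Sg r y := by
  unfold PS Sg
  have e1 : PR y = (PR w).filter (fun p : ℕ => ¬ y < (p : ℝ)) := by
    ext p
    rw [mem_filter, mem_PR hy, mem_PR (hy.trans hyw), not_lt]
    exact ⟨fun h => ⟨⟨h.1, h.2.trans hyw⟩, h.2⟩, fun h => ⟨h.1.1, h.2⟩⟩
  rw [e1, eq_sub_iff_add_eq, ← sum_filter_add_sum_filter_not (PR w) (fun p : ℕ => y < (p : ℝ))]
  congr 1
  refine sum_subset (fun p hp => ?_) fun p hp hp' => ?_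
  · rw [mem_filter] at hp ⊢
    exact ⟨hp.1, hp.2.1⟩
  · rw [mem_filter] at hp hp'
    have : r p = 0 := by
      by_contra h
      exact hp' ⟨hp.1, hp.2, h⟩
    rw [this]
    simp

theorem exp_neg_two : Real.exp (-2) ≤ 1 / 4 := by
  have h1 := Real.add_one_le_exp (1 : ℝ)
  have h2 : Real.exp 2 = Real.exp 1 * Real.exp 1 := by rw [← Real.exp_add]; norm_num
  rw [Real.exp_neg, inv_eq_one_div]
  gcongr
  rw [h2]
  nlinarith

end RoughAux

open RoughAux

/-- T4: sums over rough squarefree numbers (Rankin's trick) -/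
theorem rough_lower (r : ℕ → ℕ) (d B : ℕ) (hr : ∀ p : ℕ, p.Prime → B < p → r p ≤ d) (C : ℝ)
    (hM : ∀ w : ℝ, 3 ≤ w → Real.log (Real.log w) - C ≤ Sg r w) :
    ∃ c₂ : ℝ, 0 < c₂ ∧ ∃ Y₀ : ℝ, 3 ≤ Y₀ ∧ ∀ y z x : ℝ, Y₀ ≤ y → y ≤ x → x ≤ z →
      c₂ * Real.log x * Real.exp (-(Sg r y)) - 1 ≤
        ∑ s ∈ ((PS r y z).powerset.filter
            (fun s : Finset ℕ => s.Nonempty ∧ ∏ p ∈ s, (p : ℝ) ≤ x)),
          ∏ p ∈ s, (r p : ℝ) / (p : ℝ) := by
  classical
  obtain ⟨C', hC'0, hC'⟩ := log_sum_le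
  obtain ⟨s, hs⟩ : ∃ s : ℝ, s = 2 * d * (1 + C') + 2 := ⟨_, rfl⟩
  have hd0 : (0 : ℝ) ≤ d := Nat.cast_nonneg d
  have hB0 : (0 : ℝ) ≤ B := Nat.cast_nonneg B
  have hs2 : 2 ≤ s := by
    rw [hs]
    have : 0 ≤ 2 * (d : ℝ) * (1 + C') := by positivity
    linarith
  have hs0 : 0 < s := by linarith
  have hM' : ∀ w : ℝ, 3 ≤ w → Real.exp (-|C|) * Real.log w ≤ Real.exp (Sg r w) := by
    intro w hw
    have hlw : 0 < Real.log w := Real.log_pos (by linarith)
    have h1 := hM w hw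
    have h2 : Real.log (Real.log w) + -|C| ≤ Sg r w := by
      have := le_abs_self C
      linarith
    calc Real.exp (-|C|) * Real.log w = Real.exp (Real.log (Real.log w) + -|C|) := by
          rw [Real.exp_add, Real.exp_log hlw, mul_comm]
      _ ≤ _ := Real.exp_le_exp.2 h2
  refine ⟨3 / 4 * (Real.exp (-(d : ℝ) ^ 2) * Real.exp (-|C|)) / s, by positivity,
    3 + B + 2 * d, by linarith, fun y z x hy hyx hxz => ?_⟩
  have hy3 : 3 ≤ y := by linarith
  have hx3 : 3 ≤ x := by linarith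
  have hx0 : 0 < x := by linarith
  have hlx : 0 < Real.log x := Real.log_pos (by linarith)
  obtain ⟨w, hw⟩ : ∃ w : ℝ, w = x ^ (s⁻¹) := ⟨_, rfl⟩
  have hw0 : 0 < w := by rw [hw]; positivity
  have hlw : Real.log x = s * Real.log w := by
    rw [hw, Real.log_rpow hx0]
    field_simp
  have hex : ∀ t : ℝ, Real.exp (-t) * Real.exp t = 1 := fun t => by
    rw [← Real.exp_add]; simp
  have hv1 : Real.exp (-(d : ℝ) ^ 2) ≤ 1 := Real.exp_le_one_iff.2 (by nlinarith)
  by_cases hwy : w ≤ y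
  · -- trivial case
    have h1 : Real.log w ≤ Real.log y := Real.log_le_log hw0 hwy
    have h2 := hM' y hy3
    have hE := Real.exp_pos (-(Sg r y))
    have h3 : Real.exp (-|C|) * Real.log y * Real.exp (-(Sg r y)) ≤ 1 := by
      calc _ ≤ Real.exp (Sg r y) * Real.exp (-(Sg r y)) := by gcongr
        _ = 1 := by rw [mul_comm]; exact hex _
    have h4 : 3 / 4 * (Real.exp (-(d : ℝ) ^ 2) * Real.exp (-|C|)) / s * Real.log x *
        Real.exp (-(Sg r y)) ≤ 1 := by
      have e : 3 / 4 * (Real.exp (-(d : ℝ) ^ 2) * Real.exp (-|C|)) / s * Real.log x *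
        Real.exp (-(Sg r y)) = 3 / 4 * Real.exp (-(d : ℝ) ^ 2) *
          (Real.exp (-|C|) * Real.log w * Real.exp (-(Sg r y))) := by
        rw [hlw]
        field_simp
      rw [e]
      have h5 : Real.exp (-|C|) * Real.log w * Real.exp (-(Sg r y)) ≤ 1 := by
        refine le_trans ?_ h3
        gcongr
      have h6 : 0 ≤ Real.exp (-(d : ℝ) ^ 2) := (Real.exp_pos _).le
      have h7 : 0 ≤ Real.log w := by
        have : s * Real.log w > 0 := by rw [← hlw]; exact hlx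
        exact ((mul_pos_iff_of_pos_left hs0).1 this).le
      have h8 : 0 ≤ Real.exp (-|C|) * Real.log w * Real.exp (-(Sg r y)) := by positivity
      nlinarith [mul_le_mul hv1 h5 h8 zero_le_one]
    refine le_trans (sub_nonpos.2 h4) (sum_nonneg fun s _ => prod_nonneg fun p _ => by positivity)
  · push Not at hwy
    have hw3 : 3 ≤ w := by linarith
    have hlw1 : 1 ≤ Real.log w := by
      rw [Real.le_log_iff_exp_le hw0]
      have := Real.exp_one_lt_d9
      linarith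
    have hwx : w ≤ x := by
      rw [hw]
      calc x ^ (s⁻¹) ≤ x ^ (1 : ℝ) := Real.rpow_le_rpow_of_exponent_le (by linarith)
            (inv_le_one_of_one_le₀ (by linarith))
        _ = x := Real.rpow_one x
    obtain ⟨a, ha⟩ : ∃ a : ℕ → ℝ, a = fun p => (r p : ℝ) / (p : ℝ) := ⟨_, rfl⟩
    have hPS : ∀ {v : ℝ}, 0 ≤ v → ∀ {p : ℕ}, p ∈ PS r y v ↔
        (p.Prime ∧ (p : ℝ) ≤ v) ∧ y < (p : ℝ) ∧ r p ≠ 0 := by
      intro v hv p
      rw [PS, mem_filter, mem_PR hv]
    have hsub : PS r y w ⊆ PS r y z := by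
      intro p hp
      rw [hPS (by linarith)] at hp ⊢
      exact ⟨⟨hp.1.1, by linarith [hp.1.2]⟩, hp.2⟩
    have ha0 : ∀ p, 0 ≤ a p := fun p => by rw [ha]; positivity
    have had : ∀ p ∈ PS r y w, a p ≤ d / p := by
      intro p hp
      rw [hPS (by linarith)] at hp
      have h1 : B < p := by
        have : (B : ℝ) < p := by linarith [hp.2.1]
        exact_mod_cast this
      have h2 : (r p : ℝ) ≤ d := by exact_mod_cast hr p hp.1.1 h1
      rw [ha]
      exact div_le_div_of_nonneg_right h2 (Nat.cast_nonneg p)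
    have hp1 : ∀ p ∈ PS r y w, 1 ≤ (p : ℝ) := fun p hp => by
      rw [hPS (by linarith)] at hp
      linarith [hp.2.1]
    have hpw : ∀ p ∈ PS r y w, (p : ℝ) ≤ w := fun p hp => by
      rw [hPS (by linarith)] at hp
      exact hp.1.2
    have hη : 0 ≤ (Real.log w)⁻¹ := by positivity
    -- Rankin
    have hPi0 : 0 < ∏ p ∈ PS r y w, (1 + a p) := prod_pos fun p _ => by linarith [ha0 p]
    have hR := rankin (PS r y w) a (fun p _ => ha0 p) hx0 hη
    have hR2 := prod_le' (PS r y w) a (fun p _ => ha0 p) hp1 hlw1 hpw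
    have hxη : x ^ (-(Real.log w)⁻¹) = Real.exp (-s) := by
      rw [Real.rpow_def_of_pos hx0, hlw]
      congr 1
      have : Real.log w ≠ 0 := by linarith
      field_simp
    have hE : ∑ p ∈ PS r y w, 2 * a p * ((Real.log w)⁻¹ * Real.log p) ≤ 2 * d * (1 + C') := by
      have h1 : ∑ p ∈ PS r y w, 2 * a p * ((Real.log w)⁻¹ * Real.log p) ≤
          ∑ p ∈ PS r y w, 2 * d * (Real.log w)⁻¹ * (Real.log p / p) := by
        refine sum_le_sum fun p hp => ?_
        have h2 : 0 ≤ Real.log p := Real.log_nonneg (hp1 p hp)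
        have h3 := had p hp
        calc 2 * a p * ((Real.log w)⁻¹ * Real.log p) ≤
              2 * (d / p) * ((Real.log w)⁻¹ * Real.log p) := by gcongr
          _ = _ := by ring
      have h4 : ∑ p ∈ PS r y w, Real.log p / p ≤ ∑ p ∈ PR w, Real.log p / p :=
        sum_le_sum_of_subset_of_nonneg (filter_subset _ _) fun p hp _ => by
          have := Real.log_natCast_nonneg p
          positivity
      have h5 := hC' w (by linarith)
      rw [← mul_sum] at h1
      refine h1.trans ?_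
      calc 2 * d * (Real.log w)⁻¹ * ∑ p ∈ PS r y w, Real.log p / p ≤
            2 * d * (Real.log w)⁻¹ * (Real.log w + C') := by
              gcongr
              exact h4.trans h5
        _ = 2 * d * (1 + (Real.log w)⁻¹ * C') := by
              have : Real.log w ≠ 0 := by linarith
              field_simp
        _ ≤ 2 * d * (1 + 1 * C') := by
              gcongr
              exact inv_le_one_of_one_le₀ hlw1
        _ = _ := by ring
    have hbad : ∑ t ∈ (PS r y w).powerset.filter (fun t : Finset ℕ => ¬ ∏ p ∈ t, (p : ℝ) ≤ x),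
        ∏ p ∈ t, a p ≤ (∏ p ∈ PS r y w, (1 + a p)) * (1 / 4) := by
      refine hR.trans ?_
      rw [hxη]
      calc Real.exp (-s) * ∏ p ∈ PS r y w, (1 + a p * (p : ℝ) ^ (Real.log w)⁻¹) ≤
            Real.exp (-s) * ((∏ p ∈ PS r y w, (1 + a p)) * Real.exp (2 * d * (1 + C'))) := by
              gcongr
              refine hR2.trans ?_
              gcongr
        _ = (∏ p ∈ PS r y w, (1 + a p)) * Real.exp (-2) := by
              have : Real.exp (-2) = Real.exp (-s) * Real.exp (2 * d * (1 + C')) := by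
                rw [← Real.exp_add, hs]
                congr 1
                ring
              rw [this]
              ring
        _ ≤ _ := by
              gcongr
              exact exp_neg_two
    have hall : ∑ t ∈ (PS r y w).powerset.filter (fun t : Finset ℕ => ∏ p ∈ t, (p : ℝ) ≤ x),
        ∏ p ∈ t, a p + ∑ t ∈ (PS r y w).powerset.filter
          (fun t : Finset ℕ => ¬ ∏ p ∈ t, (p : ℝ) ≤ x), ∏ p ∈ t, a p =
        ∏ p ∈ PS r y w, (1 + a p) := by
      rw [sum_filter_add_sum_filter_not, prod_one_add]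
    -- remove the empty set
    have hmem : (∅ : Finset ℕ) ∈ (PS r y w).powerset.filter
        (fun t : Finset ℕ => ∏ p ∈ t, (p : ℝ) ≤ x) := by
      rw [mem_filter, prod_empty]
      exact ⟨empty_mem_powerset _, by linarith⟩
    have hge : ∑ t ∈ (PS r y w).powerset.filter (fun t : Finset ℕ => ∏ p ∈ t, (p : ℝ) ≤ x),
        ∏ p ∈ t, a p - 1 ≤ ∑ t ∈ ((PS r y z).powerset.filter
            (fun s : Finset ℕ => s.Nonempty ∧ ∏ p ∈ s, (p : ℝ) ≤ x)), ∏ p ∈ t, a p := by
      rw [← add_sum_erase _ _ hmem, prod_empty, add_sub_cancel_left]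
      refine sum_le_sum_of_subset_of_nonneg (fun t ht => ?_) fun t _ _ =>
        prod_nonneg fun p _ => ha0 p
      rw [mem_erase, mem_filter, mem_powerset] at ht
      rw [mem_filter, mem_powerset]
      exact ⟨ht.2.1.trans hsub, nonempty_iff_ne_empty.2 ht.1, ht.2.2⟩
    -- lower bound of the product
    have hPi : Real.exp (Sg r w - Sg r y - (d : ℝ) ^ 2) ≤ ∏ p ∈ PS r y w, (1 + a p) := by
      calc Real.exp (Sg r w - Sg r y - (d : ℝ) ^ 2) ≤
            Real.exp (∑ p ∈ PS r y w, (a p - a p ^ 2)) := by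
              rw [Real.exp_le_exp, sum_sub_distrib]
              have h1 : ∑ p ∈ PS r y w, a p = Sg r w - Sg r y := by
                rw [ha]
                exact sum_PS r (by linarith) hwy.le
              have h2 : ∑ p ∈ PS r y w, a p ^ 2 ≤ (d : ℝ) ^ 2 := by
                calc ∑ p ∈ PS r y w, a p ^ 2 ≤ ∑ p ∈ PS r y w, (d : ℝ) ^ 2 * ((p : ℝ) ^ 2)⁻¹ := by
                      refine sum_le_sum fun p hp => ?_
                      calc a p ^ 2 ≤ (d / p) ^ 2 := pow_le_pow_left₀ (ha0 p) (had p hp) 2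
                        _ = _ := by rw [div_pow, div_eq_mul_inv]
                  _ = (d : ℝ) ^ 2 * ∑ p ∈ PS r y w, ((p : ℝ) ^ 2)⁻¹ := by rw [mul_sum]
                  _ ≤ (d : ℝ) ^ 2 * 1 := by
                      gcongr
                      refine sum_inv_sq_le fun p hp => ?_
                      rw [hPS (by linarith)] at hp
                      exact hp.1.1.two_le
                  _ = _ := mul_one _
              linarith
        _ = ∏ p ∈ PS r y w, Real.exp (a p - a p ^ 2) := Real.exp_sum _ _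
        _ ≤ _ := prod_le_prod (fun p _ => (Real.exp_pos _).le) fun p _ => one_add_lower (ha0 p)
    have hfin : 3 / 4 * (Real.exp (-(d : ℝ) ^ 2) * Real.exp (-|C|)) / s * Real.log x *
        Real.exp (-(Sg r y)) ≤ 3 / 4 * ∏ p ∈ PS r y w, (1 + a p) := by
      have h2 := hM' w hw3
      have e : 3 / 4 * (Real.exp (-(d : ℝ) ^ 2) * Real.exp (-|C|)) / s * Real.log x *
        Real.exp (-(Sg r y)) = 3 / 4 * (Real.exp (-(d : ℝ) ^ 2) *
          (Real.exp (-|C|) * Real.log w) * Real.exp (-(Sg r y))) := by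
        rw [hlw]
        field_simp
      rw [e]
      gcongr
      refine le_trans ?_ hPi
      calc Real.exp (-(d : ℝ) ^ 2) * (Real.exp (-|C|) * Real.log w) * Real.exp (-(Sg r y)) ≤
            Real.exp (-(d : ℝ) ^ 2) * Real.exp (Sg r w) * Real.exp (-(Sg r y)) := by gcongr
        _ = _ := by
            rw [← Real.exp_add, ← Real.exp_add]
            congr 1
            ring
    rw [ha] at hge hall hbad hfin
    linarith

end Pool.Agent.H474R2.PG
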