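import Mathlib
import Pool.Agent.H474R2.PG.Defs
import Pool.Agent.H256R2.SC.V1

set_option autoImplicit false

/-! # Choice of a residue class for the small primes -/

namespace Pool.Agent.H474R2.PG

open Polynomial Finset

lemma dvd_iff_zmod (f : ℤ[X]) (p : ℕ) (x : ℤ) : (p : ℤ) ∣ f.eval x ↔
    (f.map (Int.castRingHom (ZMod p))).eval (x : ZMod p) = 0 := by
  rw [eval_intCast_map, ← ZMod.intCast_zmod_eq_zero_iff_dvd]
  simp

lemma card_range_zmod (p : ℕ) [NeZero p] (Q : ZMod p → Prop) [DecidablePred Q] :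
    ((Finset.range p).filter (fun a : ℕ => Q (a : ZMod p))).card =
      ((Finset.univ : Finset (ZMod p)).filter Q).card := by
  refine Finset.card_bij (fun a _ => (a : ZMod p)) ?_ ?_ ?_
  · intro a ha
    rw [Finset.mem_filter] at ha
    exact Finset.mem_filter.2 ⟨Finset.mem_univ _, ha.2⟩
  · intro a ha b hb h
    rw [Finset.mem_filter, Finset.mem_range] at ha hb
    have h1 := congrArg ZMod.val h
    rwa [ZMod.val_natCast_of_lt ha.1, ZMod.val_natCast_of_lt hb.1] at h1
  · intro b hb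
    rw [Finset.mem_filter] at hb
    refine ⟨b.val, Finset.mem_filter.2 ⟨Finset.mem_range.2 (ZMod.val_lt b), ?_⟩, ?_⟩
    · rw [ZMod.natCast_zmod_val]; exact hb.2
    · rw [ZMod.natCast_zmod_val]

lemma rho_shift (f : ℤ[X]) (p : ℕ) (hp : p.Prime) (k : ℤ) :
    ((Finset.range p).filter (fun a : ℕ => (p : ℤ) ∣ f.eval ((a : ℤ) + k))).card = rho f p := by
  classical
  have : NeZero p := ⟨hp.ne_zero⟩
  unfold rho
  have h1 : ((Finset.range p).filter (fun a : ℕ => (p : ℤ) ∣ f.eval ((a : ℤ) + k))) =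
      ((Finset.range p).filter (fun a : ℕ =>
        (f.map (Int.castRingHom (ZMod p))).eval ((a : ZMod p) + (k : ZMod p)) = 0)) := by
    refine Finset.filter_congr (fun a _ => ?_)
    rw [dvd_iff_zmod]
    push_cast
    rfl
  have h2 : ((Finset.range p).filter (fun a : ℕ => (p : ℤ) ∣ f.eval (a : ℤ))) =
      ((Finset.range p).filter (fun a : ℕ =>
        (f.map (Int.castRingHom (ZMod p))).eval (a : ZMod p) = 0)) := by
    refine Finset.filter_congr (fun a _ => ?_)
    rw [dvd_iff_zmod]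
    push_cast
    rfl
  rw [h1, h2, card_range_zmod p
      (fun a => (f.map (Int.castRingHom (ZMod p))).eval (a + (k : ZMod p)) = 0),
    card_range_zmod p (fun a => (f.map (Int.castRingHom (ZMod p))).eval a = 0)]
  refine Finset.card_bij (fun a _ => a + (k : ZMod p)) ?_ ?_ ?_
  · intro a ha
    rw [Finset.mem_filter] at ha
    exact Finset.mem_filter.2 ⟨Finset.mem_univ _, ha.2⟩
  · intro a _ b _ h
    exact add_right_cancel h
  · intro b hb
    rw [Finset.mem_filter] at hb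
    refine ⟨b - (k : ZMod p), Finset.mem_filter.2 ⟨Finset.mem_univ _, ?_⟩, by ring⟩
    rw [sub_add_cancel]
    exact hb.2

lemma rho_le_self (f : ℤ[X]) (p : ℕ) : rho f p ≤ p := by
  unfold rho
  exact (Finset.card_filter_le _ _).trans (by rw [Finset.card_range])

/-- one prime -/
lemma one_prime (f : ℤ[X]) (p : ℕ) (hp : p.Prime) (R : Finset ℕ) : ∃ a : ℤ,
    ((R.filter (fun k : ℕ => ¬ (p : ℤ) ∣ f.eval (a + (k : ℤ)))).card : ℝ) ≤
      R.card * (1 - (rho f p : ℝ) / (p : ℝ)) := by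
  classical
  have hp0 : (0 : ℝ) < p := by exact_mod_cast hp.pos
  have hsum : ∑ a ∈ Finset.range p,
      ((R.filter (fun k : ℕ => ¬ (p : ℤ) ∣ f.eval ((a : ℤ) + (k : ℤ)))).card : ℝ) =
      R.card * ((p : ℝ) - rho f p) := by
    have h1 : ∀ a ∈ Finset.range p,
        ((R.filter (fun k : ℕ => ¬ (p : ℤ) ∣ f.eval ((a : ℤ) + (k : ℤ)))).card : ℝ) =
        ∑ k ∈ R, if ¬ (p : ℤ) ∣ f.eval ((a : ℤ) + (k : ℤ)) then (1 : ℝ) else 0 := by
      intro a _
      rw [Finset.card_filter]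
      push_cast
      rfl
    rw [Finset.sum_congr rfl h1, Finset.sum_comm]
    have h2 : ∀ k ∈ R, ∑ a ∈ Finset.range p,
        (if ¬ (p : ℤ) ∣ f.eval ((a : ℤ) + (k : ℤ)) then (1 : ℝ) else 0) =
        (p : ℝ) - rho f p := by
      intro k _
      have h3 := Finset.card_filter_add_card_filter_not (s := Finset.range p)
        (fun a : ℕ => (p : ℤ) ∣ f.eval ((a : ℤ) + (k : ℤ)))
      rw [rho_shift f p hp, Finset.card_range] at h3
      have h4 : (rho f p : ℝ) + (((Finset.range p).filter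
          (fun a : ℕ => ¬ (p : ℤ) ∣ f.eval ((a : ℤ) + (k : ℤ)))).card : ℝ) = p := by
        exact_mod_cast h3
      have h5 : ∑ a ∈ Finset.range p,
          (if ¬ (p : ℤ) ∣ f.eval ((a : ℤ) + (k : ℤ)) then (1 : ℝ) else 0) =
          (((Finset.range p).filter
          (fun a : ℕ => ¬ (p : ℤ) ∣ f.eval ((a : ℤ) + (k : ℤ)))).card : ℝ) := by
        rw [Finset.card_filter]
        push_cast
        rfl
      rw [h5]
      linarith
    rw [Finset.sum_congr rfl h2, Finset.sum_const, nsmul_eq_mul]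
  have hne : (Finset.range p).Nonempty := Finset.nonempty_range_iff.2 hp.ne_zero
  obtain ⟨a, -, ha⟩ := Finset.exists_le_of_sum_le (s := Finset.range p)
    (f := fun a : ℕ =>
      ((R.filter (fun k : ℕ => ¬ (p : ℤ) ∣ f.eval ((a : ℤ) + (k : ℤ)))).card : ℝ))
    (g := fun _ => R.card * (1 - (rho f p : ℝ) / (p : ℝ))) hne (by
      rw [hsum, Finset.sum_const, Finset.card_range, nsmul_eq_mul]
      apply le_of_eq
      field_simp)
  exact ⟨a, ha⟩

lemma choose_all (f : ℤ[X]) (R : Finset ℕ) (S : Finset ℕ) (hS : ∀ p ∈ S, p.Prime) :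
    ∃ a : ℕ → ℤ, ((R.filter (fun k : ℕ => ∀ p ∈ S, ¬ (p : ℤ) ∣ f.eval (a p + (k : ℤ)))).card : ℝ) ≤
      R.card * ∏ p ∈ S, (1 - (rho f p : ℝ) / (p : ℝ)) := by
  classical
  induction S using Finset.induction_on with
  | empty => exact ⟨fun _ => 0, by simp⟩
  | insert p S hpS ih =>
    obtain ⟨a, ha⟩ := ih (fun q hq => hS q (Finset.mem_insert_of_mem hq))
    have hp := hS p (Finset.mem_insert_self p S)
    obtain ⟨a0, ha0⟩ := one_prime f p hp
      (R.filter (fun k : ℕ => ∀ p ∈ S, ¬ (p : ℤ) ∣ f.eval (a p + (k : ℤ))))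
    refine ⟨Function.update a p a0, ?_⟩
    have heq : R.filter (fun k : ℕ => ∀ q ∈ insert p S,
        ¬ (q : ℤ) ∣ f.eval (Function.update a p a0 q + (k : ℤ))) =
        (R.filter (fun k : ℕ => ∀ p ∈ S, ¬ (p : ℤ) ∣ f.eval (a p + (k : ℤ)))).filter
          (fun k : ℕ => ¬ (p : ℤ) ∣ f.eval (a0 + (k : ℤ))) := by
      rw [Finset.filter_filter]
      refine Finset.filter_congr (fun k _ => ?_)
      rw [Finset.forall_mem_insert, Function.update_self]
      constructor
      · rintro ⟨h1, h2⟩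
        refine ⟨fun q hq => ?_, h1⟩
        have := h2 q hq
        rwa [Function.update_of_ne (by rintro rfl; exact hpS hq)] at this
      · rintro ⟨h1, h2⟩
        refine ⟨h2, fun q hq => ?_⟩
        rw [Function.update_of_ne (by rintro rfl; exact hpS hq)]
        exact h1 q hq
    have hpos : 0 ≤ 1 - (rho f p : ℝ) / (p : ℝ) := by
      have hp0 : (0 : ℝ) < p := by exact_mod_cast hp.pos
      have h1 : (rho f p : ℝ) ≤ p := by exact_mod_cast rho_le_self f p
      rw [sub_nonneg, div_le_one hp0]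
      exact h1
    rw [heq, Finset.prod_insert hpS]
    calc _ ≤ _ := ha0
      _ ≤ (R.card * ∏ p ∈ S, (1 - (rho f p : ℝ) / (p : ℝ))) * (1 - (rho f p : ℝ) / (p : ℝ)) :=
          mul_le_mul_of_nonneg_right ha hpos
      _ = _ := by ring

/-- choice of a residue class for the small primes (greedy + Chinese remainder theorem) -/
theorem class_choice (f : ℤ[X]) (S : Finset ℕ) (hS : ∀ p ∈ S, p.Prime) (R : Finset ℕ) :
    ∃ r : ℤ, ((R.filter (fun k : ℕ => ∀ p ∈ S, ¬ (p : ℤ) ∣ f.eval (r + (k : ℤ)))).card : ℝ) ≤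
      R.card * ∏ p ∈ S, (1 - (rho f p : ℝ) / (p : ℝ)) := by
  classical
  obtain ⟨a, ha⟩ := choose_all f R S hS
  obtain ⟨r, hr⟩ := Pool.Agent.H256R2.SC.crt_int S (fun p : ℕ => (p : ℤ))
    (fun i hi j hj hij => by
      rw [Nat.isCoprime_iff_coprime]
      exact (Nat.coprime_primes (hS i hi) (hS j hj)).2 hij) a
  refine ⟨r, le_trans (le_of_eq ?_) ha⟩
  congr 2
  refine Finset.filter_congr (fun k _ => ?_)
  refine forall₂_congr (fun p hp => not_congr ?_)
  have h1 : (p : ℤ) ∣ f.eval (r + (k : ℤ)) - f.eval (a p + (k : ℤ)) := by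
    have h2 := Polynomial.sub_dvd_eval_sub (r + (k : ℤ)) (a p + (k : ℤ)) f
    have h3 : (p : ℤ) ∣ (r + (k : ℤ)) - (a p + (k : ℤ)) := by
      have := hr p hp
      rwa [add_sub_add_right_eq_sub]
    exact h3.trans h2
  exact (dvd_iff_dvd_of_dvd_sub h1)

end Pool.Agent.H474R2.PG
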