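import Pool.Agent.H474R2.PG.Defs

set_option autoImplicit false

namespace Pool.Agent.H474R2.PG

open Polynomial Finset

/-- a polynomial of positive degree over `ℚ` is not periodic -/
lemma ncol_not_periodic (F : ℚ[X]) (hd : 0 < F.natDegree) (t : ℚ) (ht : t ≠ 0)
    (h : F.comp (X + C t) = F) : False := by
  have h1 : ∀ n : ℕ, F.eval ((n : ℚ) * t) = F.eval 0 := by
    intro n
    induction n with
    | zero => simp
    | succ n ih =>
      have := congrArg (Polynomial.eval ((n : ℚ) * t)) h
      rw [eval_comp] at this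
      simp only [eval_add, eval_X, eval_C] at this
      rw [← ih, ← this]
      congr 1
      push_cast
      ring
  have h2 : F - C (F.eval 0) = 0 := by
    apply Polynomial.eq_zero_of_infinite_isRoot
    refine Set.infinite_of_injective_forall_mem (f := fun n : ℕ => (n : ℚ) * t) ?_ ?_
    · intro a b hab
      simpa [ht] using hab
    · intro n
      simp [IsRoot, h1 n]
  have h3 : F = C (F.eval 0) := sub_eq_zero.1 h2
  rw [h3, natDegree_C] at hd
  exact lt_irrefl _ hd

lemma ncol_coprime (F : ℚ[X]) (hF : Irreducible F) (hd : 0 < F.natDegree) (t : ℚ) (ht : t ≠ 0) :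
    IsCoprime F (F.comp (X + C t)) := by
  rw [hF.coprime_iff_not_dvd]
  intro hdvd
  have hnd : (F.comp (X + C t)).natDegree = F.natDegree := by
    rw [natDegree_comp, natDegree_X_add_C, mul_one]
  have hlc : (F.comp (X + C t)).leadingCoeff = F.leadingCoeff := by
    rw [leadingCoeff_comp (by rw [natDegree_X_add_C]; exact one_ne_zero), leadingCoeff_X_add_C,
      one_pow, mul_one]
  have := Polynomial.eq_of_dvd_of_natDegree_le_of_leadingCoeff hdvd hnd.le hlc.symm
  exact ncol_not_periodic F hd t ht this.symm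

lemma ncol_res (f : ℤ[X]) (hf : Irreducible f) (hd : 0 < f.natDegree) (t : ℤ) (ht : t ≠ 0) :
    f.resultant (f.comp (X + C t)) f.natDegree f.natDegree ≠ 0 := by
  intro h0
  have hprim : f.IsPrimitive := hf.isPrimitive hd.ne'
  have hirr : Irreducible (f.map (Int.castRingHom ℚ)) :=
    (IsPrimitive.Int.irreducible_iff_irreducible_map_cast hprim).1 hf
  set F : ℚ[X] := f.map (Int.castRingHom ℚ) with hF
  have hnF : F.natDegree = f.natDegree :=
    natDegree_map_eq_of_injective (RingHom.injective_int (Int.castRingHom ℚ)) f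
  have hcomp : (f.comp (X + C t)).map (Int.castRingHom ℚ) = F.comp (X + C (t : ℚ)) := by
    rw [Polynomial.map_comp]
    simp [hF]
  have hnG : (F.comp (X + C (t : ℚ))).natDegree = f.natDegree := by
    rw [natDegree_comp, natDegree_X_add_C, mul_one, hnF]
  have h1 := resultant_map_map f (f.comp (X + C t)) f.natDegree f.natDegree (Int.castRingHom ℚ)
  rw [h0, map_zero, hcomp, ← hF] at h1
  have h2 := resultant_ne_zero F (F.comp (X + C (t : ℚ)))
    (ncol_coprime F hirr (by rw [hnF]; exact hd) (t : ℚ) (by exact_mod_cast ht))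
  rw [hnF, hnG] at h2
  exact h2 h1

/-- T8: large primes do not divide two values of `f` at close arguments (resultants) -/
theorem no_collision (f : ℤ[X]) (hf : Irreducible f) (hd : 0 < f.natDegree) :
    ∃ A : ℕ, 2 ≤ A ∧ ∃ T₀ : ℝ, ∀ T : ℝ, T₀ ≤ T → ∀ p : ℕ, p.Prime → T ^ A < (p : ℝ) →
      ∀ t : ℕ, 1 ≤ t → (t : ℝ) ≤ T ^ 2 → ∀ x : ℤ, (p : ℤ) ∣ f.eval x →
        ¬ (p : ℤ) ∣ f.eval (x + (t : ℤ)) := by
  classical
  set d := f.natDegree with hdd
  set F : ℤ[X][X] := f.map C with hF
  set G : ℤ[X][X] := F.comp (X + C X) with hG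
  have hFd : F.natDegree ≤ d := natDegree_map_le
  have hGd : G.natDegree ≤ d := by
    have h1 : (X + C X : ℤ[X][X]).natDegree = 1 := natDegree_X_add_C _
    calc G.natDegree ≤ F.natDegree * (X + C X : ℤ[X][X]).natDegree := natDegree_comp_le
      _ ≤ d := by rw [h1, mul_one]; exact hFd
  obtain ⟨P, Q, -, -, hPQ⟩ := exists_mul_add_mul_eq_C_resultant F G hFd hGd (Or.inl hd.ne')
  set R : ℤ[X] := F.resultant G d d with hR
  have key1 : ∀ x t : ℤ, ∃ u v : ℤ, f.eval x * u + f.eval (x + t) * v = R.eval t := by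
    intro x t
    refine ⟨((P.eval (C x)).eval t), ((Q.eval (C x)).eval t), ?_⟩
    have h := congrArg (fun q : ℤ[X][X] => (q.eval (C x)).eval t) hPQ
    simp only [eval_add, eval_mul, eval_C] at h
    have hFx : (F.eval (C x)).eval t = f.eval x := by
      rw [hF, eval_map, eval₂_at_apply, eval_C]
    have hGx : (G.eval (C x)).eval t = f.eval (x + t) := by
      rw [hG, eval_comp, hF, eval_map]
      simp only [eval_add, eval_X, eval_C]
      have := Polynomial.hom_eval₂ f C (evalRingHom t) (C x + X)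
      simp only [coe_evalRingHom] at this
      rw [this]
      have hid : (evalRingHom t).comp C = RingHom.id ℤ := by
        ext; simp
      rw [hid]
      simp [eval₂_id]
    rw [hFx, hGx] at h
    exact h
  have key2 : ∀ t : ℤ, t ≠ 0 → R.eval t ≠ 0 := by
    intro t ht h0
    apply ncol_res f hf hd t ht
    have h1 := resultant_map_map F G d d (evalRingHom t)
    have hFm : F.map (evalRingHom t) = f := by
      rw [hF, Polynomial.map_map]
      have hid : (evalRingHom t).comp C = RingHom.id ℤ := by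
        ext; simp
      rw [hid, Polynomial.map_id]
    have hGm : G.map (evalRingHom t) = f.comp (X + C t) := by
      rw [hG, Polynomial.map_comp, hFm]
      simp
    rw [hFm, hGm] at h1
    rw [← hdd, h1, ← hR]
    simpa using h0
  set K : ℝ := ∑ i ∈ range (R.natDegree + 1), |((R.coeff i : ℤ) : ℝ)| with hK
  have key3 : ∀ t : ℕ, 1 ≤ t → |((R.eval (t : ℤ) : ℤ) : ℝ)| ≤ K * (t : ℝ) ^ R.natDegree := by
    intro t ht
    have h1 : (1 : ℝ) ≤ (t : ℝ) := by exact_mod_cast ht
    rw [eval_eq_sum_range]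
    push_cast
    refine (abs_sum_le_sum_abs _ _).trans ?_
    rw [hK, sum_mul]
    refine sum_le_sum fun i hi => ?_
    rw [abs_mul, abs_of_nonneg (by positivity : (0 : ℝ) ≤ (t : ℝ) ^ i)]
    exact mul_le_mul_of_nonneg_left
      (pow_le_pow_right₀ h1 (by simpa [Nat.lt_succ_iff] using hi)) (abs_nonneg _)
  refine ⟨2 * R.natDegree + 2, by omega, max 1 (K + 1), ?_⟩
  intro T hT p hp hpT t ht htT x hx hxt
  have hT1 : 1 ≤ T := (le_max_left _ _).trans hT
  have hTK : K + 1 ≤ T := (le_max_right _ _).trans hT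
  obtain ⟨u, v, huv⟩ := key1 x (t : ℤ)
  have hdvd : (p : ℤ) ∣ R.eval (t : ℤ) := by
    rw [← huv]
    exact dvd_add (hx.mul_right _) (hxt.mul_right _)
  have hne : R.eval (t : ℤ) ≠ 0 := key2 _ (by exact_mod_cast (by omega : t ≠ 0))
  have hle : (p : ℤ) ≤ |R.eval (t : ℤ)| :=
    Int.le_of_dvd (abs_pos.2 hne) ((dvd_abs _ _).2 hdvd)
  have hle' : (p : ℝ) ≤ |((R.eval (t : ℤ) : ℤ) : ℝ)| := by
    have : ((p : ℤ) : ℝ) ≤ ((|R.eval (t : ℤ)| : ℤ) : ℝ) := by exact_mod_cast hle
    rw [Int.cast_abs] at this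
    simpa using this
  have hK0 : 0 ≤ K := sum_nonneg fun i _ => abs_nonneg _
  have h2 : K * (t : ℝ) ^ R.natDegree ≤ T ^ (2 * R.natDegree + 2) := by
    have h3 : (t : ℝ) ^ R.natDegree ≤ T ^ (2 * R.natDegree) := by
      rw [pow_mul]
      exact pow_le_pow_left₀ (by positivity) htT _
    calc K * (t : ℝ) ^ R.natDegree ≤ T * T ^ (2 * R.natDegree) :=
          mul_le_mul (by linarith) h3 (by positivity) (by linarith)
      _ = T ^ (2 * R.natDegree + 1) := by ring
      _ ≤ T ^ (2 * R.natDegree + 2) := pow_le_pow_right₀ hT1 (by omega)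
  have := key3 t ht
  linarith

end Pool.Agent.H474R2.PG
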