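import Pool.Agent.H474R2.PG.Defs
import Pool.Agent.Helper256.KM.Mertens

set_option autoImplicit false

/-! # T5: the sum over `ε L < p ≤ L ^ A` is bounded (Mertens) -/

namespace Pool.Agent.H474R2.PG

open Polynomial Finset

/-- T5: the sum over `ε L < p ≤ L ^ A` is bounded (Mertens) -/
theorem Sg_close (r : ℕ → ℕ) (d B : ℕ) (hr : ∀ p : ℕ, p.Prime → B < p → r p ≤ d) (A : ℕ)
    (hA : 1 ≤ A) (ε : ℝ) (hε : 0 < ε) (hε1 : ε ≤ 1) :
    ∃ C₁ : ℝ, ∃ L₀ : ℝ, ∀ L : ℝ, L₀ ≤ L → Sg r (L ^ A) ≤ Sg r (ε * L) + C₁ := by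
  obtain ⟨C, hC⟩ := Pool.Agent.Helper256.KM.mertens_inv
  refine ⟨d * (Real.log A + Real.log 2 + 2 * C),
    max (max ((B + 1) / ε) (4 / ε)) (max ((2 / ε) ^ 2) 16), fun L hL => ?_⟩
  have hL1 : (B + 1) / ε ≤ L := (le_max_left _ _).trans ((le_max_left _ _).trans hL)
  have hL2 : 4 / ε ≤ L := (le_max_right _ _).trans ((le_max_left _ _).trans hL)
  have hL3 : (2 / ε) ^ 2 ≤ L := (le_max_left _ _).trans ((le_max_right _ _).trans hL)
  have hL4 : 16 ≤ L := (le_max_right _ _).trans ((le_max_right _ _).trans hL)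
  have hL0 : 0 < L := by linarith
  rw [div_le_iff₀ hε] at hL1 hL2
  have hεL : ε * L ≤ L ^ A := by
    calc ε * L ≤ 1 * L := by gcongr
      _ = L ^ 1 := by ring
      _ ≤ L ^ A := pow_le_pow_right₀ (by linarith) hA
  set N1 := ⌊ε * L⌋₊ with hN1
  set N2 := ⌊L ^ A⌋₊ with hN2
  have h12 : N1 ≤ N2 := Nat.floor_le_floor hεL
  have hN1f : (N1 : ℝ) ≤ ε * L := Nat.floor_le (by positivity)
  have hN1g : ε * L < N1 + 1 := Nat.lt_floor_add_one _
  have hN2f : (N2 : ℝ) ≤ L ^ A := Nat.floor_le (by positivity)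
  have hN14 : 4 ≤ N1 := by
    rw [hN1]
    apply Nat.le_floor
    push_cast
    linarith [mul_comm ε L]
  have hN1B : B < N1 := by
    rw [hN1]
    apply Nat.lt_of_lt_of_le (Nat.lt_succ_self B)
    apply Nat.le_floor
    push_cast
    linarith [mul_comm ε L]
  have hsub : PR (ε * L) ⊆ PR (L ^ A) := by
    intro p hp
    rw [PR, Finset.mem_filter, Finset.mem_Icc] at hp ⊢
    exact ⟨⟨hp.1.1, hp.1.2.trans h12⟩, hp.2⟩
  have hsplit : Sg r (L ^ A) = Sg r (ε * L) + ∑ p ∈ PR (L ^ A) \ PR (ε * L), (r p : ℝ) / p := by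
    unfold Sg
    rw [add_comm, Finset.sum_sdiff hsub]
  have hsplit2 : ∑ p ∈ PR (L ^ A) \ PR (ε * L), (1 : ℝ) / p =
      ∑ p ∈ PR (L ^ A), (1 : ℝ) / p - ∑ p ∈ PR (ε * L), (1 : ℝ) / p := by
    rw [← Finset.sum_sdiff hsub]
    ring
  have hle : ∑ p ∈ PR (L ^ A) \ PR (ε * L), (r p : ℝ) / p ≤
      d * ∑ p ∈ PR (L ^ A) \ PR (ε * L), (1 : ℝ) / p := by
    rw [Finset.mul_sum]
    apply Finset.sum_le_sum
    intro p hp
    rw [Finset.mem_sdiff] at hp
    have hpp : p.Prime := (Finset.mem_filter.1 hp.1).2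
    have hpB : B < p := by
      have h1 : ¬ p ≤ N1 := by
        intro h
        apply hp.2
        rw [PR, Finset.mem_filter, Finset.mem_Icc]
        exact ⟨⟨hpp.one_lt.le, h⟩, hpp⟩
      omega
    have h2 : (r p : ℝ) ≤ d := by exact_mod_cast hr p hpp hpB
    rw [mul_one_div]
    exact div_le_div_of_nonneg_right h2 (by positivity)
  have hM1 := abs_le.1 (hC N1 (by omega))
  have hM2 := abs_le.1 (hC N2 (by omega))
  -- logarithms
  have hlogL : 0 < Real.log L := Real.log_pos (by linarith)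
  have hlogL1 : 1 ≤ Real.log L := by
    have h3 : Real.log (Real.exp 1) ≤ Real.log L := by
      apply Real.log_le_log (Real.exp_pos 1)
      linarith [Real.exp_one_lt_d9]
    rwa [Real.log_exp] at h3
  have hN1pos : (0 : ℝ) < N1 := by
    have : (4 : ℝ) ≤ N1 := by exact_mod_cast hN14
    linarith
  have hlogN2 : Real.log (Real.log N2) ≤ Real.log A + Real.log (Real.log L) := by
    have h1 : Real.log N2 ≤ A * Real.log L := by
      rw [← Real.log_pow]
      apply Real.log_le_log _ hN2f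
      have : (4 : ℝ) ≤ N2 := by exact_mod_cast hN14.trans h12
      linarith
    have h2 : 0 < Real.log N2 := by
      apply Real.log_pos
      have : (4 : ℝ) ≤ N2 := by exact_mod_cast hN14.trans h12
      linarith
    rw [← Real.log_mul (by positivity) hlogL.ne']
    exact Real.log_le_log h2 h1
  have hlogN1 : Real.log (Real.log L) - Real.log 2 ≤ Real.log (Real.log N1) := by
    have h1 : ε * L / 2 ≤ N1 := by
      have : (4 : ℝ) ≤ N1 := by exact_mod_cast hN14
      linarith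
    have h2 : Real.log L / 2 ≤ Real.log N1 := by
      have h3 : Real.log (ε * L / 2) ≤ Real.log N1 := Real.log_le_log (by positivity) h1
      have h4 : Real.log (ε * L / 2) = Real.log L - Real.log (2 / ε) := by
        rw [Real.log_div (by positivity) (by norm_num), Real.log_mul hε.ne' hL0.ne',
          Real.log_div (by norm_num) hε.ne']
        ring
      have h5 : 2 * Real.log (2 / ε) ≤ Real.log L := by
        have h6 : Real.log ((2 / ε) ^ 2) ≤ Real.log L := Real.log_le_log (by positivity) hL3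
        rw [Real.log_pow] at h6
        exact_mod_cast h6
      linarith
    rw [← Real.log_div hlogL.ne' (by norm_num)]
    exact Real.log_le_log (by positivity) h2
  rw [hsplit]
  have hd0 : (0 : ℝ) ≤ d := by positivity
  have hfin : ∑ p ∈ PR (L ^ A) \ PR (ε * L), (1 : ℝ) / p ≤
      Real.log A + Real.log 2 + 2 * C := by
    rw [hsplit2]
    have e1 : ∑ p ∈ PR (L ^ A), (1 : ℝ) / p =
      ∑ p ∈ (Finset.Icc 1 N2).filter Nat.Prime, (1 : ℝ) / p := rfl
    have e2 : ∑ p ∈ PR (ε * L), (1 : ℝ) / p =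
      ∑ p ∈ (Finset.Icc 1 N1).filter Nat.Prime, (1 : ℝ) / p := rfl
    rw [e1, e2]
    linarith [hM1.1, hM2.2]
  have := mul_le_mul_of_nonneg_left hfin hd0
  linarith

end Pool.Agent.H474R2.PG
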