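import Pool.Agent.H474R2.PG.Defs

set_option autoImplicit false

namespace Pool.Agent.H474R2.PG

open Polynomial Finset

/-- T9: growth -/
theorem growth (f : ℤ[X]) (hd : 0 < f.natDegree) (hl : 0 < f.leadingCoeff) :
    ∃ x₀ : ℤ, ∀ x : ℤ, x₀ ≤ x → x ≤ 2 * f.eval x := by
  set F : ℝ[X] := f.map (Int.castRingHom ℝ) with hF
  have hinj : Function.Injective (Int.castRingHom ℝ) := RingHom.injective_int _
  have hnF : F.natDegree = f.natDegree := natDegree_map_eq_of_injective hinj f
  have hlF : F.leadingCoeff = (f.leadingCoeff : ℝ) := by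
    rw [hF, leadingCoeff_map_of_injective hinj]; simp
  -- `F / X ^ 1` is eventually at least `1/2`
  set g : ℝ[X] := C 2 * F - X with hg
  have hcoef : 0 < g.leadingCoeff ∧ 0 < g.degree := by
    rcases Nat.lt_or_ge 1 f.natDegree with h1 | h1
    · have hdeg : (X : ℝ[X]).degree < (C 2 * F).degree := by
        rw [degree_C_mul (by norm_num), degree_X, degree_eq_natDegree (by
          intro h; rw [h] at hnF; simp at hnF; omega), hnF]
        exact_mod_cast h1
      constructor
      · rw [hg, leadingCoeff_sub_of_degree_lt hdeg, leadingCoeff_mul, leadingCoeff_C, hlF]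
        have : (0 : ℝ) < f.leadingCoeff := by exact_mod_cast hl
        linarith
      · rw [hg, degree_sub_eq_left_of_degree_lt hdeg]
        exact lt_trans (by rw [degree_X]; exact_mod_cast Nat.one_pos) hdeg
    · have h1' : f.natDegree = 1 := le_antisymm h1 hd
      have hc1 : g.coeff 1 = 2 * (f.leadingCoeff : ℝ) - 1 := by
        rw [hg, coeff_sub, coeff_C_mul, coeff_X_one, ← hlF, leadingCoeff, hnF, h1']
      have hpos : 0 < g.coeff 1 := by
        have : (1 : ℝ) ≤ f.leadingCoeff := by exact_mod_cast hl
        rw [hc1]; linarith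
      have hle : g.natDegree ≤ 1 := by
        rw [hg]
        refine (natDegree_sub_le _ _).trans (max_le ?_ (by simp))
        refine (natDegree_C_mul_le _ _).trans ?_
        rw [hnF, h1']
      have hge : 1 ≤ g.natDegree := le_natDegree_of_ne_zero hpos.ne'
      have hnd : g.natDegree = 1 := le_antisymm hle hge
      constructor
      · rw [leadingCoeff, hnd]; exact hpos
      · rw [← natDegree_pos_iff_degree_pos, hnd]; exact Nat.one_pos
  have htend := Polynomial.tendsto_atTop_of_leadingCoeff_nonneg g hcoef.2 hcoef.1.le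
  obtain ⟨a, ha⟩ := Filter.eventually_atTop.1 (htend.eventually_ge_atTop 0)
  refine ⟨⌈a⌉, fun x hx => ?_⟩
  have hxa : a ≤ (x : ℝ) := (Int.le_ceil a).trans (by exact_mod_cast hx)
  have h := ha _ hxa
  rw [hg] at h
  simp only [eval_sub, eval_mul, eval_C, eval_X] at h
  have he : F.eval (x : ℝ) = ((f.eval x : ℤ) : ℝ) := by
    rw [hF, eval_map, ← eq_intCast (Int.castRingHom ℝ) x, eval₂_at_apply]; simp
  rw [he] at h
  have : (x : ℝ) ≤ ((2 * f.eval x : ℤ) : ℝ) := by push_cast; linarith
  exact_mod_cast this

end Pool.Agent.H474R2.PG
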