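import Pool.Agent.H474R2.PG.Cover
import Pool.Agent.H474R2.PG.MertensF
import Pool.Agent.H474R2.PG.Rough
import Pool.Agent.H474R2.PG.Close
import Pool.Agent.H474R2.PG.Class
import Pool.Agent.H474R2.PG.Count
import Pool.Agent.H474R2.PG.NoColl
import Pool.Agent.H474R2.PG.Growth

set_option autoImplicit false

/-! # Long strings of consecutive composite values of an irreducible polynomial -/

namespace Pool.Agent.H474R2.PG

open Polynomial Finset Filter

/-- product of the primes up to `w` -/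
noncomputable def WW (w : ℝ) : ℕ := ∏ p ∈ PR w, p

lemma WW_eq (w : ℝ) : WW w = primorial ⌊w⌋₊ := by
  unfold WW PR primorial
  apply Finset.prod_congr _ (fun _ _ => rfl)
  ext p
  rw [Finset.mem_filter, Finset.mem_filter, Finset.mem_Icc, Finset.mem_range]
  constructor
  · rintro ⟨⟨h1, h2⟩, h3⟩
    exact ⟨by omega, h3⟩
  · rintro ⟨h1, h3⟩
    exact ⟨⟨h3.one_lt.le, by omega⟩, h3⟩

lemma PR_prime {w : ℝ} {p : ℕ} (hp : p ∈ PR w) : p.Prime := (Finset.mem_filter.mp hp).2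

lemma PR_le {w : ℝ} (hw : 0 ≤ w) {p : ℕ} (hp : p ∈ PR w) : (p : ℝ) ≤ w := by
  unfold PR at hp
  rw [Finset.mem_filter, Finset.mem_Icc] at hp
  calc (p:ℝ) ≤ (⌊w⌋₊ : ℝ) := by exact_mod_cast hp.1.2
    _ ≤ w := Nat.floor_le hw

lemma WW_pos (w : ℝ) : 1 ≤ WW w := by
  unfold WW
  exact Finset.prod_pos fun p hp => (PR_prime hp).pos

lemma WW_le {L : ℝ} (hL : 0 ≤ L) : (WW (L / 100) : ℝ) ≤ Real.exp (L / 50) := by
  rw [WW_eq]
  have h1 : (primorial ⌊L / 100⌋₊ : ℝ) ≤ (4 : ℝ) ^ ⌊L / 100⌋₊ := by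
    exact_mod_cast primorial_le_four_pow _
  refine h1.trans ?_
  rw [← Real.rpow_natCast]
  have h2 : (4 : ℝ) ^ ((⌊L / 100⌋₊ : ℕ) : ℝ) ≤ (4 : ℝ) ^ (L / 100) :=
    Real.rpow_le_rpow_of_exponent_le (by norm_num) (Nat.floor_le (by positivity))
  refine h2.trans ?_
  rw [Real.rpow_def_of_pos (by norm_num : (0 : ℝ) < 4)]
  apply Real.exp_le_exp.2
  have h3 : Real.log 4 ≤ 3 / 2 := by
    have : Real.log 4 = 2 * Real.log 2 := by
      rw [show (4 : ℝ) = 2 ^ (2 : ℕ) by norm_num, Real.log_pow]; norm_num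
    have := Real.log_two_lt_d9
    linarith
  nlinarith

lemma prod_le_exp (f : ℤ[X]) (w : ℝ) :
    ∏ p ∈ PR w, (1 - (rho f p : ℝ) / (p : ℝ)) ≤ Real.exp (-(Sg (rho f) w)) := by
  unfold Sg
  rw [← Finset.sum_neg_distrib, Real.exp_sum]
  apply Finset.prod_le_prod
  · intro p hp
    have hp0 : (0:ℝ) < p := by exact_mod_cast (PR_prime hp).pos
    have : (rho f p : ℝ) / p ≤ 1 := by
      rw [div_le_one hp0]
      exact_mod_cast rho_le_self f p
    linarith
  · intro p _
    have := Real.add_one_le_exp (-((rho f p : ℝ) / (p : ℝ)))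
    linarith

lemma PR_not_dvd {w : ℝ} (hw : 0 ≤ w) {p : ℕ} (hp : p.Prime) (h : w < p) : ¬ p ∣ WW w := by
  intro hdvd
  unfold WW at hdvd
  obtain ⟨q, hq, hq2⟩ := (Prime.dvd_finsetProd_iff hp.prime _).mp hdvd
  have h1 : p = q := (Nat.prime_dvd_prime_iff_eq hp (PR_prime hq)).mp hq2
  have h2 := PR_le hw hq
  rw [← h1] at h2
  linarith

/-- size of the error term -/
lemma err_le (f : ℤ[X]) (d B A : ℕ) (hd : 1 ≤ d) (hA : 1 ≤ A)
    (hB : ∀ p : ℕ, p.Prime → B < p → rho f p ≤ d) (L : ℝ) (hL : 1 < L) (hBL : (B : ℝ) ≤ L)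
    (hlog : 10 * Real.log d ≤ Real.log L)
    (T : Finset ℕ) (hT : ∀ p ∈ T, p.Prime ∧ L ^ A < (p : ℝ))
    (hTX : ∏ p ∈ T, (p : ℝ) ≤ Real.exp (1 / 4 * L)) :
    ∏ p ∈ T, (rho f p : ℝ) ≤ Real.exp (1 / 10 * L) := by
  have hL0 : 0 < L := by linarith
  have hdR : (1:ℝ) ≤ d := by exact_mod_cast hd
  have hlL : 0 < Real.log L := Real.log_pos hL
  have hLA : ∀ p ∈ T, L < (p : ℝ) := by
    intro p hp
    have h1 : L ≤ L ^ A := le_self_pow₀ hL.le (by omega)
    linarith [(hT p hp).2]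
  have h1 : ∏ p ∈ T, (rho f p : ℝ) ≤ ∏ p ∈ T, (d : ℝ) := by
    apply Finset.prod_le_prod
    · intro p _; positivity
    · intro p hp
      have : B < p := by
        have := hLA p hp
        have h2 : (B:ℝ) < p := by linarith
        exact_mod_cast h2
      exact_mod_cast hB p (hT p hp).1 this
  rw [Finset.prod_const] at h1
  have h2 : L ^ T.card ≤ ∏ p ∈ T, (p : ℝ) := by
    have : L ^ T.card = ∏ p ∈ T, L := by rw [Finset.prod_const]
    rw [this]
    exact Finset.prod_le_prod (fun _ _ => hL0.le) (fun p hp => (hLA p hp).le)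
  have h3 : (T.card : ℝ) * Real.log L ≤ 1 / 4 * L := by
    have h4 := h2.trans hTX
    have h5 := Real.log_le_log (by positivity) h4
    rw [Real.log_pow, Real.log_exp] at h5
    exact h5
  refine h1.trans ?_
  have h6 : (d : ℝ) ^ T.card = Real.exp (T.card * Real.log d) := by
    rw [Real.exp_nat_mul, Real.exp_log (by linarith)]
  rw [h6]
  apply Real.exp_le_exp.mpr
  have h7 : (T.card : ℝ) * (10 * Real.log d) ≤ T.card * Real.log L :=
    mul_le_mul_of_nonneg_left hlog (Nat.cast_nonneg _)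
  linarith

theorem composite_strings (f : ℤ[X]) (hf : Irreducible f) (hd : 0 < f.natDegree)
    (hl : 0 < f.leadingCoeff) :
    ∃ c : ℝ, 0 < c ∧ ∃ Y₀ : ℝ, ∀ Y : ℝ, Y₀ ≤ Y → ∀ M : ℤ, Y ≤ M →
      ∃ x : ℤ, M < x ∧ (x : ℝ) + c * Real.log Y * Real.log (Real.log Y) ≤ M + Y ∧
        ∀ k : ℕ, (k : ℝ) ≤ c * Real.log Y * Real.log (Real.log Y) →
          ∃ p : ℕ, p.Prime ∧ (p : ℝ) ≤ Y ^ (1 / 10 : ℝ) ∧ (p : ℤ) ∣ f.eval (x + (k : ℤ)) ∧
            (p : ℤ) < f.eval (x + (k : ℤ)) := by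
  classical
  obtain ⟨B, hB⟩ := rho_le f hf.ne_zero
  obtain ⟨C, hM⟩ := mertens_lower f hf hd
  obtain ⟨c₂, hc₂, Z₀, hZ₀, hRL⟩ := rough_lower (rho f) f.natDegree B hB C hM
  obtain ⟨A, hA, T₀, hNC⟩ := no_collision f hf hd
  obtain ⟨c, hc, X₀, hcov⟩ := covering_poly (rho f) f.natDegree B hd hB C hM c₂ Z₀ hc₂ hZ₀ hRL A hA
  obtain ⟨C₁, L₀, hcl⟩ := Sg_close (rho f) f.natDegree B hB A (by omega) (1 / 100) (by norm_num)
    (by norm_num)
  obtain ⟨x₀, hx₀⟩ := growth f hd hl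
  set c' : ℝ := c * Real.exp (-C₁) / 2 with hc'
  have hc'0 : 0 < c' := by positivity
  refine ⟨c', hc'0, ?_⟩
  -- largeness
  have t1 : Tendsto (fun Y : ℝ => Real.log Y) atTop atTop := Real.tendsto_log_atTop
  have t2 : Tendsto (fun Y : ℝ => Real.log (Real.log Y)) atTop atTop := t1.comp t1
  have key : ∀ᶠ Y : ℝ in atTop, X₀ ≤ Y ∧ 1 ≤ Y ∧ (x₀ : ℝ) ≤ Y ∧ (T₀ ≤ Real.log Y ∧
      L₀ ≤ Real.log Y ∧ (B : ℝ) ≤ Real.log Y ∧ 1000 ≤ Real.log Y) ∧
      10 * Real.log (f.natDegree) ≤ Real.log (Real.log Y) ∧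
      1 ≤ c' * Real.log (Real.log Y) ∧ c' * Real.log (Real.log Y) ≤ Real.log Y ∧
      (Real.log Y) ^ 2 ≤ Y / 4 := by
    have e1 : ∀ᶠ Y : ℝ in atTop, c' * Real.log (Real.log Y) ≤ Real.log Y := by
      have h1 : ∀ᶠ t : ℝ in atTop, c' * Real.log t ≤ t := by
        have h2 := Real.isLittleO_log_id_atTop.def (show (0:ℝ) < 1 / c' by positivity)
        filter_upwards [h2, eventually_ge_atTop (1:ℝ)] with t ht ht1
        rw [Real.norm_eq_abs, abs_of_nonneg (Real.log_nonneg ht1), Real.norm_eq_abs] at ht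
        simp only [id] at ht
        rw [abs_of_nonneg (by linarith), div_mul_eq_mul_div, one_mul, le_div_iff₀ hc'0] at ht
        linarith
      exact t1.eventually h1
    have e2 : ∀ᶠ Y : ℝ in atTop, (Real.log Y) ^ 2 ≤ Y / 4 := by
      have h1 : (fun Y : ℝ => (Real.log Y) ^ (2:ℝ)) =o[atTop] (fun Y : ℝ => Y ^ (1 : ℝ)) :=
        isLittleO_log_rpow_rpow_atTop 2 (by norm_num)
      filter_upwards [h1.def (show (0:ℝ) < 1 / 4 by norm_num), eventually_ge_atTop (1:ℝ)]
        with Y hY hY1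
      have hlog := Real.log_nonneg hY1
      rw [Real.norm_eq_abs, Real.norm_eq_abs, abs_of_nonneg (Real.rpow_nonneg hlog _),
        Real.rpow_one, abs_of_nonneg (by linarith), Real.rpow_two] at hY
      linarith
    filter_upwards [eventually_ge_atTop X₀, eventually_ge_atTop (1:ℝ),
      eventually_ge_atTop (x₀ : ℝ), t1.eventually_ge_atTop T₀, t1.eventually_ge_atTop L₀,
      t1.eventually_ge_atTop (B : ℝ), t1.eventually_ge_atTop (1000 : ℝ),
      t2.eventually_ge_atTop (10 * Real.log (f.natDegree)),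
      t2.eventually_ge_atTop (1 / c'), e1, e2] with Y a1 a2 a3 a4 a5 a6 a7 a8 a9 a10 a11
    refine ⟨a1, a2, a3, ⟨a4, a5, a6, a7⟩, a8, ?_, a10, a11⟩
    rw [div_le_iff₀ hc'0] at a9
    linarith
  obtain ⟨Y₀, hY₀⟩ := eventually_atTop.mp key
  refine ⟨Y₀, fun Y hY M hMY => ?_⟩
  obtain ⟨a1, a2, a3, ⟨a4, a5, a6, a7⟩, a8, a9, a10, a11⟩ := hY₀ Y hY
  have hY0 : 0 < Y := by linarith
  set L : ℝ := Real.log Y with hL
  set l : ℝ := Real.log L with hll
  have hLpos : 0 < L := by linarith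
  have hYexp : Y = Real.exp L := (Real.exp_log hY0).symm
  have hYr : ∀ s : ℝ, Y ^ s = Real.exp (s * L) := by
    intro s
    rw [hYexp, ← Real.exp_mul, mul_comm]
  have hl0 : 0 < l := Real.log_pos (by linarith)
  -- the length
  set H : ℕ := ⌊c' * L * l⌋₊ with hH
  have hcLl : 0 ≤ c' * L * l := by positivity
  have hH1 : (H : ℝ) ≤ c' * L * l := Nat.floor_le hcLl
  have hcLl2 : c' * L * l ≤ L ^ 2 := by
    have : c' * L * l = L * (c' * l) := by ring
    rw [this, sq]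
    exact mul_le_mul_of_nonneg_left a10 hLpos.le
  have hcLl1 : 1 ≤ c' * L * l := by
    have : c' * L * l = L * (c' * l) := by ring
    rw [this]
    nlinarith
  -- small primes
  set w : ℝ := 1 / 100 * L with hw
  have hw0 : 0 ≤ w := by positivity
  have hw' : w = L / 100 := by rw [hw]; ring
  obtain ⟨r, hr⟩ := class_choice f (PR w) (fun p hp => PR_prime hp) (Finset.range (H + 1))
  set Rs : Finset ℕ := (Finset.range (H + 1)).filter
    (fun k : ℕ => ∀ p ∈ PR w, ¬ (p : ℤ) ∣ f.eval (r + (k : ℤ))) with hRs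
  set W : ℕ := WW w with hW
  have hW1 : 1 ≤ W := WW_pos w
  have hWle : (W : ℝ) ≤ Real.exp (L / 50) := by
    rw [hW, hw']
    exact WW_le hLpos.le
  have hWR : (0:ℝ) < W := by exact_mod_cast hW1
  -- survivors
  have hcard : (Rs.card : ℝ) ≤ c * L * l * Real.exp (-(Sg (rho f) (L ^ A))) := by
    have h1 : (Rs.card : ℝ) ≤ (H + 1) * Real.exp (-(Sg (rho f) w)) := by
      refine hr.trans ?_
      rw [Finset.card_range]
      push_cast
      exact mul_le_mul_of_nonneg_left (prod_le_exp f w) (by positivity)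
    have h2 : Real.exp (-(Sg (rho f) w)) ≤ Real.exp C₁ * Real.exp (-(Sg (rho f) (L ^ A))) := by
      rw [← Real.exp_add]
      apply Real.exp_le_exp.mpr
      have := hcl L a5
      linarith
    have h3 : (H : ℝ) + 1 ≤ 2 * (c' * L * l) := by linarith
    calc (Rs.card : ℝ) ≤ (H + 1) * Real.exp (-(Sg (rho f) w)) := h1
      _ ≤ (2 * (c' * L * l)) * (Real.exp C₁ * Real.exp (-(Sg (rho f) (L ^ A)))) :=
          mul_le_mul h3 h2 (Real.exp_pos _).le (by positivity)
      _ = c * L * l * Real.exp (-(Sg (rho f) (L ^ A))) := by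
          rw [hc']
          have : Real.exp (-C₁) * Real.exp C₁ = 1 := by rw [← Real.exp_add]; simp
          calc 2 * (c * Real.exp (-C₁) / 2 * L * l) * (Real.exp C₁ *
                Real.exp (-(Sg (rho f) (L ^ A)))) = c * L * l * (Real.exp (-C₁) * Real.exp C₁) *
                Real.exp (-(Sg (rho f) (L ^ A))) := by ring
            _ = _ := by rw [this, mul_one]
  -- the set
  set B' : ℤ := M + ⌊Y / 2⌋ with hB'
  have hfl1 : Y / 2 - 1 < (⌊Y / 2⌋ : ℝ) := Int.sub_one_lt_floor _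
  have hfl2 : (⌊Y / 2⌋ : ℝ) ≤ Y / 2 := Int.floor_le _
  have hY4 : 4 ≤ Y := by nlinarith
  have hMB : M ≤ B' := by
    rw [hB']
    have : (0:ℤ) ≤ ⌊Y / 2⌋ := Int.floor_nonneg.mpr (by linarith)
    linarith
  set 𝒜 : Finset ℤ := (Finset.Ioc M B').filter (fun a : ℤ => (W : ℤ) ∣ a - r) with h𝒜
  set N : ℝ := ((B' : ℝ) - M) / W with hN
  have hBM : Y / 4 ≤ (B' : ℝ) - M := by
    rw [hB']
    push_cast
    linarith
  have hNge : Y ^ (1 / 2 : ℝ) ≤ N := by
    rw [hN, le_div_iff₀ hWR]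
    refine le_trans ?_ hBM
    rw [hYr]
    calc Real.exp (1 / 2 * L) * W ≤ Real.exp (1 / 2 * L) * Real.exp (L / 50) :=
          mul_le_mul_of_nonneg_left hWle (Real.exp_pos _).le
      _ = Real.exp (26 / 50 * L) := by rw [← Real.exp_add]; congr 1; ring
      _ ≤ Y / 4 := by
          have h1 : Y = Real.exp (26 / 50 * L) * Real.exp (24 / 50 * L) := by
            rw [← Real.exp_add, hYexp]; congr 1; ring
          have h2 : 4 ≤ Real.exp (24 / 50 * L) := by
            have := Real.add_one_le_exp (24 / 50 * L)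
            linarith
          have h3 := Real.exp_pos (26 / 50 * L)
          rw [h1]
          nlinarith
  -- conclusion for a suitable `a`
  have hfin : ∀ a ∈ 𝒜, (∀ k ∈ Rs, ∃ p : ℕ, p.Prime ∧ (p : ℝ) ≤ Y ^ (1 / 10 : ℝ) ∧
      (p : ℤ) ∣ f.eval (a + (k : ℤ))) → ∃ x : ℤ, M < x ∧
      (x : ℝ) + c' * L * l ≤ M + Y ∧ ∀ k : ℕ, (k : ℝ) ≤ c' * L * l →
          ∃ p : ℕ, p.Prime ∧ (p : ℝ) ≤ Y ^ (1 / 10 : ℝ) ∧ (p : ℤ) ∣ f.eval (x + (k : ℤ)) ∧
            (p : ℤ) < f.eval (x + (k : ℤ)) := by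
    intro a ha hcovd
    rw [h𝒜, Finset.mem_filter, Finset.mem_Ioc] at ha
    obtain ⟨⟨ha1, ha2⟩, ha3⟩ := ha
    refine ⟨a, ha1, ?_, ?_⟩
    · have h1 : (a : ℝ) ≤ M + Y / 2 := by
        have : (a : ℝ) ≤ (B' : ℝ) := by exact_mod_cast ha2
        rw [hB'] at this
        push_cast at this
        linarith
      linarith
    · intro k hk
      have hkH : k ≤ H := Nat.le_floor hk
      have hex : ∃ p : ℕ, p.Prime ∧ (p : ℝ) ≤ Y ^ (1 / 10 : ℝ) ∧
          (p : ℤ) ∣ f.eval (a + (k : ℤ)) := by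
        by_cases hkR : k ∈ Rs
        · exact hcovd k hkR
        · rw [hRs, Finset.mem_filter, not_and] at hkR
          have h1 := hkR (Finset.mem_range.mpr (by omega))
          push Not at h1
          obtain ⟨p, hp, hpd⟩ := h1
          refine ⟨p, PR_prime hp, ?_, ?_⟩
          · have h2 := PR_le hw0 hp
            have h3 : w ≤ Y ^ (1 / 10 : ℝ) := by
              rw [hYr, hw]
              have := Real.add_one_le_exp (1 / 10 * L)
              linarith
            linarith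
          · have h2 : (p : ℤ) ∣ a - r := by
              refine dvd_trans ?_ ha3
              have : p ∣ W := by
                rw [hW]
                exact Finset.dvd_prod_of_mem _ hp
              exact_mod_cast this
            have h3 := Polynomial.sub_dvd_eval_sub (a + (k : ℤ)) (r + (k : ℤ)) f
            have h4 : a + (k : ℤ) - (r + (k : ℤ)) = a - r := by ring
            rw [h4] at h3
            have h5 := dvd_trans h2 h3
            have h6 := dvd_add h5 hpd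
            rwa [sub_add_cancel] at h6
      obtain ⟨p, hp, hpY, hpd⟩ := hex
      refine ⟨p, hp, hpY, hpd, ?_⟩
      have h1 : (Y : ℝ) ≤ ((a + (k : ℤ) : ℤ) : ℝ) := by
        push_cast
        have h2 : (M : ℝ) < a := by exact_mod_cast ha1
        have h3 : (0:ℝ) ≤ k := Nat.cast_nonneg k
        linarith
      have h2 : x₀ ≤ a + (k : ℤ) := by
        have : (x₀ : ℝ) ≤ ((a + (k : ℤ) : ℤ) : ℝ) := by linarith
        exact_mod_cast this
      have h3 := hx₀ _ h2
      have h4 : ((a + (k : ℤ) : ℤ) : ℝ) ≤ 2 * ((f.eval (a + (k : ℤ)) : ℤ) : ℝ) := by exact_mod_cast h3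
      have h5 : (p : ℝ) < Y / 2 := by
        refine lt_of_le_of_lt hpY ?_
        rw [hYr]
        have e1 : Y = Real.exp (1 / 10 * L) * Real.exp (9 / 10 * L) := by
          rw [← Real.exp_add, hYexp]; congr 1; ring
        have e2 : 4 ≤ Real.exp (9 / 10 * L) := by
          have := Real.add_one_le_exp (9 / 10 * L)
          linarith
        have e3 := Real.exp_pos (1 / 10 * L)
        rw [e1]
        nlinarith
      have h6 : (p : ℝ) < ((f.eval (a + (k : ℤ)) : ℤ) : ℝ) := by linarith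
      exact_mod_cast h6
  have h𝒜ne : 𝒜.Nonempty := by
    have h1 := Pool.Agent.H256R2.SC.count_ap M B' hMB W hW1 r
    rw [← h𝒜] at h1
    rw [← Finset.card_pos]
    have h2 : (1:ℝ) < N := by
      refine lt_of_lt_of_le ?_ hNge
      rw [hYr]
      exact Real.one_lt_exp_iff.mpr (by linarith)
    have h3 := (abs_le.mp h1).1
    rw [← hN] at h3
    have : (0:ℝ) < (𝒜.card : ℝ) := by linarith
    exact_mod_cast this
  have hT1 : ∀ k ∈ Rs, (k : ℝ) ≤ L ^ 2 := by
    intro k h1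
    rw [hRs, Finset.mem_filter, Finset.mem_range] at h1
    have h2 : (k : ℝ) ≤ H := by exact_mod_cast Nat.lt_succ_iff.mp h1.1
    linarith
  rcases Rs.eq_empty_or_nonempty with hemp | hne
  · obtain ⟨a, ha⟩ := h𝒜ne
    exact hfin a ha (fun k hk => by rw [hemp] at hk; exact absurd hk (Finset.notMem_empty k))
  · have : Nonempty (↥Rs) := hne.to_subtype
    set hit : ℕ → ℤ → (↥Rs) → Prop := fun p a k => (p : ℤ) ∣ f.eval (a + ((k : ℕ) : ℤ)) with hhit
    have hT2 : ∀ k : ↥Rs, ((k : ℕ) : ℝ) ≤ L ^ 2 := fun k => hT1 k k.2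
    have huniq : ∀ p : ℕ, p.Prime → L ^ A < p → ∀ a (k k' : ↥Rs), (k : ℕ) < (k' : ℕ) →
        hit p a k → hit p a k' → False := by
      intro p hp hpA a k k' hkk h1 h2
      have h3 := hNC L a4 p hp hpA ((k' : ℕ) - (k : ℕ)) (by omega) (by
        have e1 : (((k' : ℕ) - (k : ℕ) : ℕ) : ℝ) ≤ ((k' : ℕ) : ℝ) := by
          exact_mod_cast Nat.sub_le _ _
        exact e1.trans (hT2 k')) (a + ((k : ℕ) : ℤ)) h1
      apply h3
      have e2 : a + ((k : ℕ) : ℤ) + (((k' : ℕ) - (k : ℕ) : ℕ) : ℤ) = a + ((k' : ℕ) : ℤ) := by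
        push_cast [Nat.cast_sub hkk.le]
        ring
      rw [e2]
      exact h2
    obtain ⟨a, ha, hac⟩ := hcov Y a1 (↥Rs) (by rw [Fintype.card_coe]; exact hcard) hit
      (by
        intro p hp hpA _ a k k' h1 h2
        rcases lt_trichotomy (k : ℕ) (k' : ℕ) with h | h | h
        · exact (huniq p hp hpA a k k' h h1 h2).elim
        · exact Subtype.ext h
        · exact (huniq p hp hpA a k' k h h2 h1).elim)
      𝒜 N (Real.exp (1 / 10 * L)) hNge (Real.exp_pos _).le (by rw [hYr])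
      (by
        intro T s hTX hT
        have h1 := count_class f M B' hMB W hW1 r T (fun p hp => ⟨(hT p hp).1,
          PR_not_dvd hw0 (hT p hp).1 (by
            have e1 := (hT p hp).2
            have e2 : L ≤ L ^ A := le_self_pow₀ (by linarith) (by omega)
            rw [hw]
            linarith)⟩) (fun p => ((s p : ℕ) : ℤ))
        have h2 : 𝒜.filter (fun a => ∀ p ∈ T, hit p a (s p)) =
            (Finset.Ioc M B').filter (fun a : ℤ => (W : ℤ) ∣ a - r ∧
              ∀ p ∈ T, (p : ℤ) ∣ f.eval (a + ((s p : ℕ) : ℤ))) := by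
          rw [h𝒜, Finset.filter_filter]
        rw [hYr] at hTX
        have h3 := h1.trans (err_le f f.natDegree B A hd (by omega) hB L (by linarith) a6 a8 T
          hT hTX)
        rw [← h2] at h3
        refine le_trans (le_of_eq ?_) h3
        congr!)
    exact hfin a ha (fun k hk => by
      obtain ⟨p, hp, _, hpY, hpd⟩ := hac ⟨k, hk⟩
      exact ⟨p, hp, hpY, hpd⟩)

end Pool.Agent.H474R2.PG
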