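import Pool.Agent.H474R2.PG.Defs
import Pool.Agent.H921R2.TatePole.Homs
import Pool.Agent.Helper256.KM.Mertens

set_option autoImplicit false

/-! # Mertens type lower bound for the homomorphisms of a ring of integers to `𝔽_p` -/

namespace Pool.Agent.H474R2.PG

open Polynomial Finset NumberField Filter Topology
open Pool.Agent.H921R2.TatePole

theorem P1_floor {w : ℝ} (hw : 3 ≤ w) : 3 ≤ ⌊w⌋₊ ∧
    Real.log (Real.log w) - Real.log 3 ≤ Real.log (Real.log ⌊w⌋₊) ∧
    Real.log ⌊w⌋₊ ≤ Real.log w := by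
  have hN : 3 ≤ ⌊w⌋₊ := Nat.le_floor (by exact_mod_cast hw)
  have hw0 : (0 : ℝ) < w := by linarith
  have hNw : (⌊w⌋₊ : ℝ) ≤ w := Nat.floor_le hw0.le
  have hN0 : (0 : ℝ) < ⌊w⌋₊ := by
    have : 0 < ⌊w⌋₊ := by omega
    exact_mod_cast this
  have hlow : w / 2 ≤ (⌊w⌋₊ : ℝ) := by
    have := Nat.lt_floor_add_one w
    have h3 : (3 : ℝ) ≤ ⌊w⌋₊ := by exact_mod_cast hN
    linarith
  have h1 : Real.log w - Real.log 2 ≤ Real.log ⌊w⌋₊ := by
    rw [← Real.log_div hw0.ne' (by norm_num)]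
    exact Real.log_le_log (by positivity) hlow
  have h2 : 3 * Real.log 2 ≤ 2 * Real.log w := by
    have h8 : Real.log (2 ^ 3) ≤ Real.log (w ^ 2) := by
      refine Real.log_le_log (by positivity) ?_
      nlinarith
    rw [Real.log_pow, Real.log_pow] at h8
    push_cast at h8
    exact h8
  have hlogw : 0 < Real.log w := Real.log_pos (by linarith)
  have h3 : Real.log w / 3 ≤ Real.log ⌊w⌋₊ := by linarith
  refine ⟨hN, ?_, Real.log_le_log hN0 hNw⟩
  rw [← Real.log_div hlogw.ne' (by norm_num)]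
  exact Real.log_le_log (by positivity) h3

theorem homs_lower (K : Type) [Field K] [NumberField K] : ∃ C : ℝ, ∀ w : ℝ, 3 ≤ w →
    Real.log (Real.log w) - C ≤ ∑ p ∈ PR w, (Nat.card (𝓞 K →+* ZMod p) : ℝ) / (p : ℝ) := by
  obtain ⟨CR, hCR⟩ := sum_R_bdd (K := K)
  obtain ⟨CW, hCW⟩ := W_sub_Lam_bdd
  obtain ⟨M1, hM1⟩ := Pool.Agent.Helper256.KM.mertens_log
  obtain ⟨M2, hM2⟩ := Pool.Agent.Helper256.KM.mertens_inv
  have hM10 : 0 ≤ M1 := (abs_nonneg _).trans (hM1 1 le_rfl)
  have hboth := hCR.and hCW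
  obtain ⟨u, hu1, hu⟩ := mem_nhdsGT_iff_exists_Ioo_subset.1 hboth
  simp only [Set.mem_Ioi] at hu1
  set n : ℝ := (Module.finrank ℚ K : ℝ) with hn
  have hn0 : 0 ≤ n := by positivity
  set T : ℝ := CW + M1 + M2 + 1 + Real.log 3 with hT
  refine ⟨max (CR + CW + n * T) (Real.log (1 / (u - 1))), fun w hw => ?_⟩
  have hsum0 : 0 ≤ ∑ p ∈ PR w, (Nat.card (𝓞 K →+* ZMod p) : ℝ) / (p : ℝ) :=
    Finset.sum_nonneg fun p _ => by positivity
  have hlog1 : 1 ≤ Real.log w := by
    have h1 : Real.exp 1 ≤ w := by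
      have := Real.exp_one_lt_d9
      linarith
    have := Real.log_le_log (Real.exp_pos 1) h1
    rwa [Real.log_exp] at this
  have hlog0 : 0 < Real.log w := by linarith
  by_cases hsm : Real.log w ≤ 1 / (u - 1)
  · have h1 : Real.log (Real.log w) ≤ Real.log (1 / (u - 1)) := Real.log_le_log hlog0 hsm
    have h2 := le_max_right (CR + CW + n * T) (Real.log (1 / (u - 1)))
    linarith
  push Not at hsm
  have hu0 : 0 < u - 1 := by linarith
  set x : ℝ := 1 + 1 / Real.log w with hx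
  have hx1 : 1 < x := by rw [hx]; linarith [show (0 : ℝ) < 1 / Real.log w by positivity]
  have hxu : x < u := by
    have : 1 / Real.log w < u - 1 := by
      rw [div_lt_iff₀ hlog0]
      rw [div_lt_iff₀ hu0] at hsm
      linarith
    rw [hx]; linarith
  obtain ⟨hA, hB⟩ := hu ⟨hx1, hxu⟩
  rw [abs_le] at hA hB
  simp only at hA hB
  have hLam : Lam x = Real.log (Real.log w) := by
    unfold Lam
    rw [hx]
    congr 1
    field_simp
    ring
  rw [hLam] at hB
  obtain ⟨hN3, hNlow, hNlog⟩ := P1_floor hw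
  set N := ⌊w⌋₊ with hNdef
  set s : Finset Nat.Primes := Finset.subtype Nat.Prime (Finset.Icc 1 N) with hs
  -- transfer of sums
  have htrans : ∀ f : ℕ → ℝ, ∑ p ∈ s, f p = ∑ p ∈ PR w, f p := by
    intro f
    exact Finset.sum_subtype_eq_sum_filter (s := Finset.Icc 1 N) (p := Nat.Prime) f
  have hwdef : ∀ p : Nat.Primes, Pool.Agent.H921R2.TatePole.w x p = ((p : ℕ) : ℝ) ^ (-x) :=
    fun p => rfl
  have hwsum := w_summable hx1
  have hRsum : Summable (fun p : Nat.Primes => (R K p : ℝ) * Pool.Agent.H921R2.TatePole.w x p) :=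
    bddmul_summable hx1 (C := Module.finrank ℚ K) fun p => by
      rw [abs_of_nonneg (by positivity)]; exact_mod_cast R_le p
  -- the total sum
  have hSR : ∑' p : Nat.Primes, ((R K p : ℝ) - 1) * Pool.Agent.H921R2.TatePole.w x p =
      ∑' p : Nat.Primes, (R K p : ℝ) * Pool.Agent.H921R2.TatePole.w x p - W x := by
    have e : ∀ p : Nat.Primes, ((R K p : ℝ) - 1) * Pool.Agent.H921R2.TatePole.w x p =
      (R K p : ℝ) * Pool.Agent.H921R2.TatePole.w x p - Pool.Agent.H921R2.TatePole.w x p :=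
      fun p => by ring
    rw [tsum_congr e, Summable.tsum_sub hRsum hwsum]
    rfl
  rw [hSR] at hA
  -- (a)
  have ha : Real.log (Real.log w) - (M1 + M2 + 1 + Real.log 3) ≤
      ∑ p ∈ s, Pool.Agent.H921R2.TatePole.w x p := by
    have h1 : ∑ p ∈ s, Pool.Agent.H921R2.TatePole.w x p = ∑ p ∈ PR w, (p : ℝ) ^ (-x) :=
      htrans (fun p => (p : ℝ) ^ (-x))
    rw [h1]
    have h2 : ∀ p ∈ PR w, (1 : ℝ) / p - (Real.log p / p) / Real.log w ≤ (p : ℝ) ^ (-x) := by
      intro p hp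
      unfold PR at hp
      rw [Finset.mem_filter] at hp
      have hp0 : (0 : ℝ) < p := by exact_mod_cast hp.2.pos
      have e1 : (p : ℝ) ^ (-x) = (1 / p) * Real.exp (-(Real.log p / Real.log w)) := by
        rw [Real.rpow_def_of_pos hp0, hx,
          show Real.log p * -(1 + 1 / Real.log w) = -Real.log p + -(Real.log p / Real.log w) by ring,
          Real.exp_add, Real.exp_neg, Real.exp_log hp0]
        simp
      rw [e1]
      have h3 := Real.add_one_le_exp (-(Real.log p / Real.log w))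
      have h4 : (0 : ℝ) ≤ 1 / p := by positivity
      have h5 := mul_le_mul_of_nonneg_left h3 h4
      calc (1 : ℝ) / p - (Real.log p / p) / Real.log w
          = 1 / p * (-(Real.log p / Real.log w) + 1) := by ring
        _ ≤ _ := h5
    have h3 := Finset.sum_le_sum h2
    rw [Finset.sum_sub_distrib, ← Finset.sum_div] at h3
    have h4 := (abs_le.1 (hM1 N (by omega))).2
    have h5 := (abs_le.1 (hM2 N hN3)).1
    have e4 : ∑ p ∈ PR w, Real.log p / p = ∑ p ∈ (Finset.Icc 1 N).filter Nat.Prime, Real.log p / p :=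
      rfl
    have e5 : ∑ p ∈ PR w, (1 : ℝ) / p = ∑ p ∈ (Finset.Icc 1 N).filter Nat.Prime, (1 : ℝ) / p := rfl
    rw [← e4] at h4
    rw [← e5] at h5
    have h6 : (∑ p ∈ PR w, Real.log p / p) / Real.log w ≤ 1 + M1 := by
      rw [div_le_iff₀ hlog0]
      nlinarith
    linarith
  -- (b)
  have hb : W x - ∑ p ∈ s, Pool.Agent.H921R2.TatePole.w x p ≤ T := by
    rw [hT]; linarith [hB.2]
  -- (c)
  have hcc : n * ∑ p ∈ s, Pool.Agent.H921R2.TatePole.w x p -
      ∑ p ∈ s, (R K p : ℝ) * Pool.Agent.H921R2.TatePole.w x p ≤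
      n * W x - ∑' p : Nat.Primes, (R K p : ℝ) * Pool.Agent.H921R2.TatePole.w x p := by
    have e1 : n * W x - ∑' p : Nat.Primes, (R K p : ℝ) * Pool.Agent.H921R2.TatePole.w x p =
        ∑' p : Nat.Primes, (n * Pool.Agent.H921R2.TatePole.w x p -
          (R K p : ℝ) * Pool.Agent.H921R2.TatePole.w x p) := by
      rw [Summable.tsum_sub (hwsum.mul_left n) hRsum, tsum_mul_left]
      rfl
    have e2 : n * ∑ p ∈ s, Pool.Agent.H921R2.TatePole.w x p -
      ∑ p ∈ s, (R K p : ℝ) * Pool.Agent.H921R2.TatePole.w x p =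
      ∑ p ∈ s, (n * Pool.Agent.H921R2.TatePole.w x p -
          (R K p : ℝ) * Pool.Agent.H921R2.TatePole.w x p) := by
      rw [Finset.sum_sub_distrib, Finset.mul_sum]
    rw [e1, e2]
    refine Summable.sum_le_tsum s (fun p _ => ?_) ((hwsum.mul_left n).sub hRsum)
    have h1 : (R K p : ℝ) ≤ n := by rw [hn]; exact_mod_cast R_le p
    have h2 := w_nonneg x p
    nlinarith
  -- (d)
  have hd : ∑ p ∈ s, (R K p : ℝ) * Pool.Agent.H921R2.TatePole.w x p ≤
      ∑ p ∈ PR w, (Nat.card (𝓞 K →+* ZMod p) : ℝ) / (p : ℝ) := by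
    rw [← htrans (fun p => (Nat.card (𝓞 K →+* ZMod p) : ℝ) / (p : ℝ))]
    refine Finset.sum_le_sum fun p _ => ?_
    rw [R_eq_hc, hwdef]
    unfold hc
    rw [div_eq_mul_inv]
    refine mul_le_mul_of_nonneg_left ?_ (by positivity)
    have hp1 : (1 : ℝ) ≤ ((p : ℕ) : ℝ) := by exact_mod_cast p.2.one_lt.le
    rw [← Real.rpow_neg_one]
    exact Real.rpow_le_rpow_of_exponent_le hp1 (by linarith)
  have hnT : n * (W x - ∑ p ∈ s, Pool.Agent.H921R2.TatePole.w x p) ≤ n * T :=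
    mul_le_mul_of_nonneg_left hb hn0
  have hmax := le_max_left (CR + CW + n * T) (Real.log (1 / (u - 1)))
  linarith [hA.1, hB.1]

end Pool.Agent.H474R2.PG
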