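import Pool.Agent.H474R2.PG.Final

set_option autoImplicit false

/-! # Long strings of consecutive composite values: final forms -/

namespace Pool.Agent.H474R2.PG

open Polynomial Filter

theorem strings_abs (f : ℤ[X]) (hf : Irreducible f) (hd : 0 < f.natDegree) :
    ∃ c : ℝ, 0 < c ∧ ∃ Y₀ : ℝ, ∀ Y : ℝ, Y₀ ≤ Y → ∀ M : ℤ, Y ≤ M →
      ∃ x : ℤ, M < x ∧ (x : ℝ) + c * Real.log Y * Real.log (Real.log Y) ≤ M + Y ∧
        ∀ k : ℕ, (k : ℝ) ≤ c * Real.log Y * Real.log (Real.log Y) →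
          ∃ p : ℕ, p.Prime ∧ (p : ℝ) ≤ Y ^ (1 / 10 : ℝ) ∧ (p : ℤ) ∣ f.eval (x + (k : ℤ)) ∧
            p < (f.eval (x + (k : ℤ))).natAbs := by
  rcases lt_trichotomy f.leadingCoeff 0 with hl | hl | hl
  · obtain ⟨c, hc, Y₀, h⟩ := composite_strings (-f) ((Associated.refl f).neg_right.irreducible hf) (by rwa [natDegree_neg])
      (by rw [leadingCoeff_neg]; linarith)
    refine ⟨c, hc, Y₀, fun Y hY M hM => ?_⟩
    obtain ⟨x, h1, h2, h3⟩ := h Y hY M hM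
    refine ⟨x, h1, h2, fun k hk => ?_⟩
    obtain ⟨p, hp, hpY, hpd, hpl⟩ := h3 k hk
    rw [eval_neg] at hpd hpl
    refine ⟨p, hp, hpY, (dvd_neg.mp hpd), ?_⟩
    omega
  · exact absurd (leadingCoeff_eq_zero.mp hl) hf.ne_zero
  · obtain ⟨c, hc, Y₀, h⟩ := composite_strings f hf hd hl
    refine ⟨c, hc, Y₀, fun Y hY M hM => ?_⟩
    obtain ⟨x, h1, h2, h3⟩ := h Y hY M hM
    refine ⟨x, h1, h2, fun k hk => ?_⟩
    obtain ⟨p, hp, hpY, hpd, hpl⟩ := h3 k hk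
    refine ⟨p, hp, hpY, hpd, ?_⟩
    omega

theorem strings_short (f : ℤ[X]) (hf : Irreducible f) (hd : 0 < f.natDegree) (θ : ℝ)
    (hθ : 0 < θ) :
    ∃ c : ℝ, 0 < c ∧ ∃ X₀ : ℝ, ∀ X : ℝ, X₀ ≤ X →
      ∃ x : ℕ, X ≤ x ∧ (x : ℝ) + c * Real.log X * Real.log (Real.log X) ≤ X + X ^ θ ∧
        ∀ n : ℕ, x ≤ n → (n : ℝ) ≤ x + c * Real.log X * Real.log (Real.log X) →
          ∃ p : ℕ, p.Prime ∧ (p : ℝ) ≤ X ^ θ ∧ (p : ℤ) ∣ f.eval (n : ℤ) ∧
            p < (f.eval (n : ℤ)).natAbs := by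
  obtain ⟨c, hc, Y₀, h⟩ := strings_abs f hf hd
  set t : ℝ := min θ 1 with ht
  have ht0 : 0 < t := lt_min hθ one_pos
  have ht1 : t ≤ 1 := min_le_right _ _
  have htθ : t ≤ θ := min_le_left _ _
  refine ⟨c * t / 4, by positivity, ?_⟩
  have t1 : Tendsto (fun X : ℝ => Real.log X) atTop atTop := Real.tendsto_log_atTop
  have t2 : Tendsto (fun X : ℝ => Real.log (Real.log X)) atTop atTop := t1.comp t1
  have t3 : Tendsto (fun X : ℝ => X ^ t) atTop atTop := tendsto_rpow_atTop ht0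
  have key : ∀ᶠ X : ℝ in atTop, 1 ≤ X ∧ 2 * Y₀ ≤ X ^ t ∧ 4 ≤ X ^ t ∧
      2 * Real.log 2 ≤ t * Real.log X ∧ -2 * Real.log (t / 2) ≤ Real.log (Real.log X) ∧
      1 ≤ Real.log (Real.log X) ∧ 1 < Real.log X := by
    have e1 : ∀ᶠ X : ℝ in atTop, 2 * Real.log 2 ≤ t * Real.log X := by
      filter_upwards [t1.eventually_ge_atTop (2 * Real.log 2 / t)] with X hX
      rw [div_le_iff₀ ht0] at hX
      linarith
    filter_upwards [eventually_ge_atTop (1:ℝ), t3.eventually_ge_atTop (2 * Y₀),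
      t3.eventually_ge_atTop 4, e1, t2.eventually_ge_atTop (-2 * Real.log (t / 2)),
      t2.eventually_ge_atTop 1, t1.eventually_gt_atTop 1] with X a1 a2 a3 a4 a5 a6 a7
    exact ⟨a1, a2, a3, a4, a5, a6, a7⟩
  obtain ⟨X₀, hX₀⟩ := eventually_atTop.mp key
  refine ⟨X₀, fun X hX => ?_⟩
  obtain ⟨a1, a2, a3, a4, a5, a6, a7⟩ := hX₀ X hX
  have hX0 : 0 < X := by linarith
  set Y : ℝ := X ^ t / 2 with hY
  have hY2 : 2 ≤ Y := by linarith
  have hXt : X ^ t ≤ X := by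
    calc X ^ t ≤ X ^ (1:ℝ) := Real.rpow_le_rpow_of_exponent_le a1 ht1
      _ = X := Real.rpow_one X
  have hXθ : X ^ t ≤ X ^ θ := Real.rpow_le_rpow_of_exponent_le a1 htθ
  have hMX : X ≤ (⌈X⌉ : ℝ) := Int.le_ceil X
  have hMX1 : (⌈X⌉ : ℝ) < X + 1 := Int.ceil_lt_add_one X
  obtain ⟨x, h1, h2, h3⟩ := h Y (by linarith) ⌈X⌉ (by linarith)
  have hlogY : t / 2 * Real.log X ≤ Real.log Y := by
    rw [hY, Real.log_div (by positivity) (by norm_num), Real.log_rpow hX0]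
    linarith
  have hl0 : 0 < Real.log X := by linarith
  have hllY : Real.log (Real.log X) / 2 ≤ Real.log (Real.log Y) := by
    have e1 : Real.log (t / 2 * Real.log X) ≤ Real.log (Real.log Y) :=
      Real.log_le_log (by positivity) hlogY
    rw [Real.log_mul (by positivity) hl0.ne'] at e1
    linarith
  have hlen : c * t / 4 * Real.log X * Real.log (Real.log X) ≤
      c * Real.log Y * Real.log (Real.log Y) := by
    have e1 : c * t / 4 * Real.log X * Real.log (Real.log X) =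
        c * (t / 2 * Real.log X) * (Real.log (Real.log X) / 2) := by ring
    rw [e1]
    apply mul_le_mul _ hllY (by linarith) (by
      have : 0 ≤ Real.log Y := Real.log_nonneg (by linarith)
      positivity)
    exact mul_le_mul_of_nonneg_left hlogY hc.le
  have hx0 : 0 ≤ x := by
    have : (0:ℝ) < x := by
      have e1 : ((⌈X⌉ : ℤ) : ℝ) < x := by exact_mod_cast h1
      linarith
    exact_mod_cast this.le
  obtain ⟨x', rfl⟩ := Int.eq_ofNat_of_zero_le hx0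
  have e1 : ((⌈X⌉ : ℤ) : ℝ) < (x' : ℝ) := by exact_mod_cast h1
  have hx' : (((x' : ℕ) : ℤ) : ℝ) = (x' : ℝ) := by push_cast; rfl
  rw [hx'] at h2
  refine ⟨x', by linarith, by linarith, ?_⟩
  intro n hn1 hn2
  obtain ⟨k, rfl⟩ := Nat.exists_eq_add_of_le hn1
  push_cast at hn2
  obtain ⟨p, hp, hpY, hpd, hpl⟩ := h3 k (by linarith)
  refine ⟨p, hp, ?_, ?_, ?_⟩
  · refine hpY.trans ?_
    calc Y ^ (1 / 10 : ℝ) ≤ Y ^ (1 : ℝ) :=
          Real.rpow_le_rpow_of_exponent_le (by linarith) (by norm_num)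
      _ = Y := Real.rpow_one Y
      _ ≤ X ^ t := by linarith
      _ ≤ X ^ θ := hXθ
  · push_cast
    exact hpd
  · push_cast
    exact hpl

end Pool.Agent.H474R2.PG
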